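import Pool.Agent.H78.FR.Ofl
import Pool.Agent.H25.NP.Up

/-!
General circuits for monotone properties can be made robust against `r` hidden absent pairs.
-/

set_option linter.unusedSectionVars false

namespace Pool.Agent.H78.FR

open Finset
open Pool.Agent.H25.NP hiding Circuit
open Pool.Agent.H9.NW (Circuit)
open Pool.Agent.H78.WS

section

variable {ι : Type} [Fintype ι] [DecidableEq ι]

open Classical in
/-- The literals `Y`, with the variables of `W` set to the constants prescribed by `W`. -/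
noncomputable def asg (W : Finset (ι × Bool)) (Y : Finset (ι ⊕ ι)) : Finset (ι ⊕ ι) :=
  univ.filter fun k => Sum.elim
    (fun e => (e, true) ∈ W ∨ ((∀ b, (e, b) ∉ W) ∧ Sum.inl e ∈ Y))
    (fun e => ((e, true) ∉ W ∧ (e, false) ∈ W) ∨ ((∀ b, (e, b) ∉ W) ∧ Sum.inr e ∈ Y)) k

theorem mem_asg_inl {W : Finset (ι × Bool)} {Y : Finset (ι ⊕ ι)} {e : ι} :
    Sum.inl e ∈ asg W Y ↔ ((e, true) ∈ W ∨ ((∀ b, (e, b) ∉ W) ∧ Sum.inl e ∈ Y)) := by
  simp [asg]

theorem mem_asg_inr {W : Finset (ι × Bool)} {Y : Finset (ι ⊕ ι)} {e : ι} :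
    Sum.inr e ∈ asg W Y ↔ (((e, true) ∉ W ∧ (e, false) ∈ W) ∨
      ((∀ b, (e, b) ∉ W) ∧ Sum.inr e ∈ Y)) := by
  simp [asg]

/-- The robust version of `c`. -/
def rob (c : Finset (ι ⊕ ι) → Prop) (r : ℕ) (Y : Finset (ι ⊕ ι)) : Prop :=
  ∃ W : Finset (ι × Bool), W.card ≤ r ∧ (∀ e, (e, true) ∈ W → Sum.inl e ∈ Y) ∧ c (asg W Y)

/-- The robust version is computed by a program. -/
theorem comp_rob {c : Finset (ι ⊕ ι) → Prop} {s : ℕ} (hc : Comp (Inp (ι ⊕ ι)) {c} s 0) (r : ℕ) :
    Comp (Inp (ι ⊕ ι)) {rob c r}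
      (Fintype.card (ι ⊕ ι) + 2 + (2 * Fintype.card ι + 1) ^ r * (s + 2) + 1) 0 := by
  classical
  let I : Finset (Finset (ι × Bool)) := univ.filter fun W => W.card ≤ r
  let g : Finset (ι × Bool) → Finset (ι ⊕ ι) → Prop := fun W Y =>
    (∀ e, (e, true) ∈ W → Sum.inl e ∈ Y) ∧ c (asg W Y)
  have h1 := (comp_K₀ (ι := ι ⊕ ι)).family I g (c := s + 2) (by
    intro W _ K' s' r' hK' hc'
    have hT : (fun _ => True) ∈ K' := hK' (Or.inl rfl)
    have hF : (fun _ => False) ∈ K' := hK' (Or.inr (Or.inl rfl))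
    have hI : ∀ i : ι ⊕ ι, (fun X : Finset (ι ⊕ ι) => i ∈ X) ∈ K' :=
      fun i => hK' (Or.inr (Or.inr ⟨i, rfl⟩))
    have g1 := hc.subst (asg W) hc' (by
      rintro _ ⟨k, rfl⟩
      have key : ∀ (p q : Prop) (k' : ι ⊕ ι),
          (fun Y : Finset (ι ⊕ ι) => p ∨ (q ∧ k' ∈ Y)) ∈ K' := by
        intro p q k'
        by_cases hp : p
        · have : (fun Y : Finset (ι ⊕ ι) => p ∨ (q ∧ k' ∈ Y)) = fun _ => True := by
            funext Y
            simp [hp]
          rw [this]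
          exact hT
        · by_cases hq : q
          · have : (fun Y : Finset (ι ⊕ ι) => p ∨ (q ∧ k' ∈ Y)) = fun Y => k' ∈ Y := by
              funext Y
              simp [hp, hq]
            rw [this]
            exact hI k'
          · have : (fun Y : Finset (ι ⊕ ι) => p ∨ (q ∧ k' ∈ Y)) = fun _ => False := by
              funext Y
              simp [hp, hq]
            rw [this]
            exact hF
      rcases k with e | e
      · have : (fun Y : Finset (ι ⊕ ι) => Sum.inl e ∈ asg W Y) =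
            fun Y => ((e, true) ∈ W ∨ ((∀ b, (e, b) ∉ W) ∧ Sum.inl e ∈ Y)) := by
          funext Y
          exact propext mem_asg_inl
        rw [this]
        exact key _ _ _
      · have : (fun Y : Finset (ι ⊕ ι) => Sum.inr e ∈ asg W Y) =
            fun Y => (((e, true) ∉ W ∧ (e, false) ∈ W) ∨ ((∀ b, (e, b) ∉ W) ∧ Sum.inr e ∈ Y)) := by
          funext Y
          exact propext mem_asg_inr
        rw [this]
        exact key _ _ _)
    rw [Nat.zero_add] at g1
    have g2 := g1.and {f | ∃ e, (e, true) ∈ W ∧ f = fun Y : Finset (ι ⊕ ι) => Sum.inl e ∈ Y} (by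
      rintro f ⟨e, _, rfl⟩
      exact Or.inr (hI (Sum.inl e))) (g := fun Y => ∀ e, (e, true) ∈ W → Sum.inl e ∈ Y) (by
      intro Y
      constructor
      · rintro h f ⟨e, he, rfl⟩
        exact h e he
      · intro h e he
        exact h _ ⟨e, he, rfl⟩)
    have g3 := g2.and2 (f₁ := fun Y => ∀ e, (e, true) ∈ W → Sum.inl e ∈ Y)
      (f₂ := fun Y => c (asg W Y)) (Or.inl rfl) (Or.inr (Or.inl rfl)) (g := g W) fun Y => Iff.rfl
    refine g3.mono ?_ (by omega)
    rintro f (rfl | hf)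
    · exact Or.inl rfl
    · exact Or.inr (Or.inr (Or.inr hf)))
  have h2 := h1.or (g '' (I : Set (Finset (ι × Bool)))) Set.subset_union_right (g := rob c r) (by
    intro Y
    constructor
    · rintro ⟨W, hW, h3, h4⟩
      exact ⟨g W, ⟨W, Finset.mem_coe.2 (Finset.mem_filter.2 ⟨Finset.mem_univ _, hW⟩), rfl⟩, h3, h4⟩
    · rintro ⟨_, ⟨W, hW, rfl⟩, h3, h4⟩
      exact ⟨W, (Finset.mem_filter.1 (Finset.mem_coe.1 hW)).2, h3, h4⟩)
  refine h2.mono ?_ ?_
  · intro f hf
    rw [Set.mem_singleton_iff] at hf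
    rw [hf]
    exact Or.inl rfl
  · have h3 : I.card ≤ (2 * Fintype.card ι + 1) ^ r := by
      have h4 := card_sets_le (ι × Bool) r
      rw [Fintype.card_prod, Fintype.card_bool, mul_comm] at h4
      exact h4
    have := Nat.mul_le_mul_right (s + 2) h3
    omega

end

variable {n s : ℕ}

theorem mem_ofSet {X : Finset (Edge n)} {e : Edge n} : e.1 ∈ (ofSet X).edgeSet ↔ e ∈ X := by
  obtain ⟨e, he⟩ := e
  induction e using Sym2.ind with
  | _ u v =>
    rw [SimpleGraph.mem_edgeSet]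
    exact ofSet_adj he

/-- **Converse.** General circuits for monotone properties can be made robust against `r` hidden
absent pairs. -/
theorem robust (C : Circuit n s) (h1 : ∀ i ∈ C.leaf, (C.reads i).card ≤ 1) (out : Fin s)
    {f : SimpleGraph (Fin n) → Prop} (hf : ∀ G H, G ≤ H → f G → f H) (r : ℕ)
    (hC : ∀ G : SimpleGraph (Fin n), C.Proof G Finset.univ out ↔ f G) :
    ∃ (s' : ℕ) (C' : Circuit n s') (out' : Fin s'), s' ≤ 5 * (s + 1) * (n ^ 2 + 1) ^ (r + 1) ∧
      ∀ G : SimpleGraph (Fin n), (C'.Proof G Finset.univ out' → f G) ∧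
        (f G → ∀ z : Fin r → Sym2 (Fin n), C'.Proof G (univ \ univ.image z) out') := by
  classical
  obtain ⟨l, g1, g2, g3⟩ := toProg C h1 s le_rfl
  obtain ⟨c, hc1, hc2⟩ := g3 out out.2
  have hcm : ∀ Y Y', Y ⊆ Y' → c Y → c Y' := fun Y Y' hY =>
    g1.mono rfl (by
      rintro g ⟨k, rfl⟩ x y hxy hx
      exact hxy hx) c hc1 Y Y' hY
  have hcomp : Comp (Inp (Edge n ⊕ Edge n)) {c} s 0 := by
    refine ⟨l, g1, ?_, g2⟩
    rintro f' hf'
    rw [Set.mem_singleton_iff] at hf'
    rw [hf']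
    exact hc1
  obtain ⟨l', m1, m2, m3⟩ := comp_rob hcomp r
  obtain ⟨C', hC'⟩ := ofProg m1 rfl
  obtain ⟨out', hout⟩ := hC' _ (m2 _ rfl)
  refine ⟨_, C', out', ?_, fun G => ⟨fun h => ?_, fun h z => ?_⟩⟩
  · refine m3.trans ?_
    rw [Fintype.card_sum, card_Edge]
    have e1 : 2 * n.choose 2 ≤ n ^ 2 := by
      rw [Nat.choose_two_right]
      have := Nat.mul_div_le (n * (n - 1)) 2
      calc 2 * (n * (n - 1) / 2) ≤ n * (n - 1) := this
        _ ≤ n * n := Nat.mul_le_mul_left _ (Nat.sub_le _ _)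
        _ = n ^ 2 := (sq n).symm
    set P := (n ^ 2 + 1) ^ r with hP
    have e2 : (2 * n.choose 2 + 1) ^ r ≤ P := Nat.pow_le_pow_left (by omega) r
    have e3 : 1 ≤ P := Nat.one_le_pow _ _ (Nat.succ_pos _)
    have e4 : (2 * n.choose 2 + 1) ^ r * (s + 2) ≤ P * (s + 2) := Nat.mul_le_mul_right _ e2
    have e5 : (n ^ 2 + 1) * 1 ≤ (n ^ 2 + 1) * P := Nat.mul_le_mul_left _ e3
    have e6 : 1 * P ≤ (n ^ 2 + 1) * P := Nat.mul_le_mul_right _ (by omega)
    have e7 : (n ^ 2 + 1) ^ (r + 1) = (n ^ 2 + 1) * P := by rw [pow_succ, mul_comm]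
    rw [e7]
    set Q := (n ^ 2 + 1) * P with hQ
    have e8 : P * (s + 2) ≤ Q * (s + 2) := Nat.mul_le_mul_right _ (by omega)
    calc n.choose 2 + n.choose 2 + 2 + (2 * n.choose 2 + 1) ^ r * (s + 2) + 1
        ≤ n ^ 2 + 3 + Q * (s + 2) := by omega
      _ ≤ 3 * Q + Q * (s + 2) := by omega
      _ = (s + 5) * Q := by ring
      _ ≤ (5 * (s + 1)) * Q := Nat.mul_le_mul_right _ (by omega)
  · -- soundness
    rw [hout] at h
    obtain ⟨W, hW, h2, h3⟩ := h
    let X : Finset (Edge n) := univ.filter fun e =>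
      (e, true) ∈ W ∨ ((∀ b, (e, b) ∉ W) ∧ e.1 ∈ G.edgeSet)
    have hX : ∀ e, e ∈ X ↔ ((e, true) ∈ W ∨ ((∀ b, (e, b) ∉ W) ∧ e.1 ∈ G.edgeSet)) := by
      intro e
      simp [X]
    have e1 : asg W (litN G univ) ⊆ lits X := by
      intro k hk
      rcases k with e | e
      · rw [mem_asg_inl, mem_litN_inl] at hk
        rw [mem_lits_inl, hX]
        exact hk
      · rw [mem_asg_inr, mem_litN_inr] at hk
        rw [mem_lits_inr, hX]
        rintro (h4 | ⟨h4, h5⟩)
        · rcases hk with ⟨h6, _⟩ | ⟨h6, _⟩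
          · exact h6 h4
          · exact h6 true h4
        · rcases hk with ⟨_, h6⟩ | ⟨_, h6⟩
          · exact h4 false h6
          · exact h6.1 h5
    have e2 : val C (ofSet X) out := (hc2 X).1 (hcm _ _ e1 h3)
    refine hf _ _ ?_ ((hC _).1 e2)
    rw [← SimpleGraph.edgeSet_subset_edgeSet]
    intro e he
    have hd : ¬ e.IsDiag := SimpleGraph.not_isDiag_of_mem_edgeSet _ he
    have h4 : (⟨e, hd⟩ : Edge n) ∈ X := (mem_ofSet (e := (⟨e, hd⟩ : Edge n))).1 he
    rcases (hX _).1 h4 with h5 | h5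
    · exact (mem_litN_inl (e := (⟨e, hd⟩ : Edge n))).1 (h2 _ h5)
    · exact h5.2
  · -- completeness
    rw [hout]
    let b : Edge n → Bool := fun e => decide (e.1 ∈ G.edgeSet)
    let U : Finset (Edge n) := univ.filter fun e => e.1 ∈ univ.image z
    let W : Finset (Edge n × Bool) := U.image fun e => (e, b e)
    have hWm : ∀ e v, (e, v) ∈ W ↔ (e.1 ∈ univ.image z ∧ v = b e) := by
      intro e v
      show (e, v) ∈ U.image (fun e => (e, b e)) ↔ _
      rw [Finset.mem_image]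
      constructor
      · rintro ⟨e', he', h5⟩
        obtain ⟨h6, h7⟩ := Prod.mk.inj h5
        subst h6
        exact ⟨(Finset.mem_filter.1 he').2, h7.symm⟩
      · rintro ⟨h5, h6⟩
        exact ⟨e, Finset.mem_filter.2 ⟨Finset.mem_univ _, h5⟩, by rw [h6]⟩
    have hWt : ∀ e, (e, true) ∈ W ↔ (e.1 ∈ univ.image z ∧ e.1 ∈ G.edgeSet) := by
      intro e
      rw [hWm]
      refine and_congr_right fun _ => ?_
      show true = decide (e.1 ∈ G.edgeSet) ↔ _
      rw [eq_comm, decide_eq_true_iff]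
    have hWf : ∀ e, (e, false) ∈ W ↔ (e.1 ∈ univ.image z ∧ e.1 ∉ G.edgeSet) := by
      intro e
      rw [hWm]
      refine and_congr_right fun _ => ?_
      show false = decide (e.1 ∈ G.edgeSet) ↔ _
      rw [eq_comm, decide_eq_false_iff_not]
    have hWn : ∀ e : Edge n, e.1 ∉ univ.image z → ∀ v, (e, v) ∉ W := by
      intro e he v h5
      exact he ((hWm e v).1 h5).1
    refine ⟨W, ?_, ?_, ?_⟩
    · refine Finset.card_image_le.trans ?_
      have h5 : U.card ≤ (univ.image z).card := by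
        refine Finset.card_le_card_of_injOn (fun e => e.1) ?_ ?_
        · intro e he
          exact Finset.mem_coe.2 (Finset.mem_filter.1 (Finset.mem_coe.1 he)).2
        · intro e _ e' _ h6
          exact Subtype.ext h6
      refine h5.trans (Finset.card_image_le.trans ?_)
      rw [Finset.card_univ, Fintype.card_fin]
    · intro e he
      rw [mem_litN_inl]
      exact ((hWt e).1 he).2
    · have h5 : c (lits (toSet G)) := by
        rw [hc2, ofSet_toSet]
        exact (hC G).2 h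
      refine hcm _ _ ?_ h5
      intro k hk
      have hG : ∀ e : Edge n, e ∈ toSet G ↔ e.1 ∈ G.edgeSet := by
        intro e
        rw [← mem_ofSet, ofSet_toSet]
      rcases k with e | e
      · rw [mem_lits_inl, hG] at hk
        rw [mem_asg_inl, mem_litN_inl]
        by_cases h6 : e.1 ∈ univ.image z
        · exact Or.inl ((hWt e).2 ⟨h6, hk⟩)
        · exact Or.inr ⟨hWn e h6, hk⟩
      · rw [mem_lits_inr, hG] at hk
        rw [mem_asg_inr, mem_litN_inr]
        by_cases h6 : e.1 ∈ univ.image z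
        · exact Or.inl ⟨fun h7 => hk ((hWt e).1 h7).2, (hWf e).2 ⟨h6, hk⟩⟩
        · exact Or.inr ⟨hWn e h6, hk, Finset.mem_sdiff.2 ⟨Finset.mem_univ _, h6⟩⟩

end Pool.Agent.H78.FR
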