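import Pool.Agent.H78.FR.Hit

/-!
A circuit with many proofs that avoid a random tuple of absent pairs is accepted by the monotone
program of some place with positive probability.
-/

namespace Pool.Agent.H78.FR

open Finset
open Pool.Agent.H25 Pool.Agent.H25.NM Pool.Agent.H9.NW

set_option linter.unusedSectionVars false

variable {V E R : Type} [Fintype E] [DecidableEq E] [Fintype R] [DecidableEq R] {n s : ℕ}

open Classical in
/-- `ρ` at the pairs of `x`, `T` elsewhere. -/
noncomputable def mix (f : Frame V E R n) (x : SimpleGraph V) (ρ T : E → R) : E → R :=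
  fun e => if x.Adj (f.ends e).1 (f.ends e).2 then ρ e else T e

theorem mix_adj (f : Frame V E R n) {x : SimpleGraph V} {ρ T : E → R} {e : E}
    (h : x.Adj (f.ends e).1 (f.ends e).2) : mix f x ρ T e = ρ e := if_pos h

theorem mix_not (f : Frame V E R n) {x : SimpleGraph V} {ρ T : E → R} {e : E}
    (h : ¬ x.Adj (f.ends e).1 (f.ends e).2) : mix f x ρ T e = T e := if_neg h

theorem mix_mix (f : Frame V E R n) (x : SimpleGraph V) (ρ T : E → R) :
    mix f x (mix f x ρ T) (mix f x T ρ) = ρ := by
  funext e
  by_cases h : x.Adj (f.ends e).1 (f.ends e).2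
  · rw [mix_adj f h, mix_adj f h]
  · rw [mix_not f h, mix_not f h]

/-- The exchange of the places at the absent pairs. -/
noncomputable def exch (f : Frame V E R n) (x : SimpleGraph V) :
    Equiv.Perm ((E → R) × (E → R)) where
  toFun := fun q => (mix f x q.1 q.2, mix f x q.2 q.1)
  invFun := fun q => (mix f x q.1 q.2, mix f x q.2 q.1)
  left_inv := fun q => Prod.ext (mix_mix f x q.1 q.2) (mix_mix f x q.2 q.1)
  right_inv := fun q => Prod.ext (mix_mix f x q.1 q.2) (mix_mix f x q.2 q.1)

theorem gr_mix (f : Frame V E R n) (x : SimpleGraph V) (ρ T : E → R) :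
    f.gr (mix f x ρ T) x = f.gr ρ x := by
  classical
  have key : ∀ S : Finset E, (∀ e ∈ S, ¬ x.Adj (f.ends e).1 (f.ends e).2) →
      f.gr (fun e => if e ∈ S then T e else ρ e) x = f.gr ρ x := by
    intro S
    induction S using Finset.induction_on with
    | empty =>
      intro _
      congr 1
    | insert a S ha ih =>
      intro hS
      have e1 : (fun e => if e ∈ insert a S then T e else ρ e) =
          Function.update (fun e => if e ∈ S then T e else ρ e) a (T a) := by
        funext e
        by_cases he : e = a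
        · subst he
          rw [Function.update_self, if_pos (Finset.mem_insert_self _ _)]
        · rw [Function.update_of_ne he]
          by_cases heS : e ∈ S
          · rw [if_pos heS, if_pos (Finset.mem_insert_of_mem heS)]
          · rw [if_neg heS, if_neg]
            rw [Finset.mem_insert]
            push Not
            exact ⟨he, heS⟩
      rw [e1, f.h3 _ _ _ _ (hS a (Finset.mem_insert_self _ _))]
      exact ih fun e he => hS e (Finset.mem_insert_of_mem he)
  have h := key (univ.filter fun e => ¬ x.Adj (f.ends e).1 (f.ends e).2)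
    fun e he => (Finset.mem_filter.1 he).2
  rw [← h]
  congr 1
  funext e
  by_cases he : x.Adj (f.ends e).1 (f.ends e).2
  · rw [mix_adj f he, if_neg]
    simp [he]
  · rw [mix_not f he, if_pos]
    simp [he]

/-- The embedding of the places. -/
def hidEmb (f : Frame V E R n) : E × R ↪ Sym2 (Fin n) :=
  ⟨fun q => f.hid q.1 q.2, fun q q' h => Prod.ext (f.h4 _ _ _ _ h).1 (f.h4 _ _ _ _ h).2⟩

/-- The main step. -/
theorem exists_place' [AddGroup R] (f : Frame V E R n) (C : Circuit n s) (out : Fin s)
    {P : Type} [Fintype P] (pos : P → SimpleGraph V) {r D : ℕ}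
    (hgood : ∀ ρ p, Fintype.card (Fin r → Sym2 (Fin n)) ≤
      D * nc fun z : Fin r → Sym2 (Fin n) =>
        C.Proof (f.gr ρ (pos p)) (univ \ univ.image z) out)
    (hpos : 0 < Fintype.card (Fin r → Sym2 (Fin n)))
    (hmiss : 2 * D * (Fintype.card E * (Fintype.card (Sym2 (Fin n)) - Fintype.card R) ^ r) ≤
      Fintype.card (Sym2 (Fin n)) ^ r) :
    ∃ ρ : E → R, Fintype.card P ≤
      2 * D * nc fun p : P => C.Proof (f.gr ρ (pos p)) (f.vis ρ) out := by
  classical
  set A := Fintype.card (E → R) with hA
  set M := Fintype.card (Fin r → Sym2 (Fin n)) with hM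
  have hApos : 0 < A := by
    have : Nonempty (E → R) := ⟨fun _ => 0⟩
    exact Fintype.card_pos
  -- one graph
  have h1 : ∀ (ρ : E → R) (p : P), A ≤ 2 * D * nc fun T : E → R =>
      C.Proof (f.gr (mix f (pos p) ρ T) (pos p)) (f.vis (mix f (pos p) ρ T)) out := by
    intro ρ p
    have e1 := hit (hidEmb f) (r := r)
      (fun z => C.Proof (f.gr ρ (pos p)) (univ \ univ.image z) out)
      (fun T => C.Proof (f.gr (mix f (pos p) ρ T) (pos p)) (f.vis (mix f (pos p) ρ T)) out)
      (by
        intro z T hz hg
        rw [← gr_mix f (pos p) ρ T] at hg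
        refine f.proof_vis C hg fun e he => ?_
        rw [mix_not f he, Finset.mem_sdiff]
        rintro ⟨-, h⟩
        obtain ⟨i, hi⟩ := hz e
        exact h (Finset.mem_image.2 ⟨i, Finset.mem_univ _, hi⟩))
    rw [← hA, ← hM] at e1
    have e2 := hgood ρ p
    have e3 := nc_miss_le (hidEmb f) r
    set X := nc fun z : Fin r → Sym2 (Fin n) =>
        C.Proof (f.gr ρ (pos p)) (univ \ univ.image z) out with hX
    set Y := nc fun z : Fin r → Sym2 (Fin n) => ∃ e, ∀ i y, z i ≠ (hidEmb f) (e, y) with hY
    set W := nc fun T : E → R =>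
      C.Proof (f.gr (mix f (pos p) ρ T) (pos p)) (f.vis (mix f (pos p) ρ T)) out with hW
    have e4 : 2 * D * Y ≤ M := by
      refine (Nat.mul_le_mul_left _ e3).trans (hmiss.trans (le_of_eq ?_))
      rw [hM, Fintype.card_fun, Fintype.card_fin]
    refine Nat.le_of_mul_le_mul_left ?_ hpos
    have e5 : 2 * (M * A) ≤ M * A + 2 * (D * (M * W)) := by
      calc 2 * (M * A) ≤ 2 * ((D * X) * A) :=
            Nat.mul_le_mul_left _ (Nat.mul_le_mul_right _ e2)
        _ = 2 * D * (X * A) := by ring
        _ ≤ 2 * D * (Y * A + M * W) := Nat.mul_le_mul_left _ e1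
        _ = 2 * D * Y * A + 2 * (D * (M * W)) := by ring
        _ ≤ M * A + 2 * (D * (M * W)) := Nat.add_le_add_right (Nat.mul_le_mul_right _ e4) _
    calc M * A ≤ 2 * (D * (M * W)) := by omega
      _ = M * (2 * D * W) := by ring
  -- average over the places
  have h2 : ∀ p : P, A ≤ 2 * D * nc fun ρ : E → R => C.Proof (f.gr ρ (pos p)) (f.vis ρ) out := by
    intro p
    let F : (E → R) → Prop := fun ρ => C.Proof (f.gr ρ (pos p)) (f.vis ρ) out
    have e1 := nc_prod (α := E → R) (β := E → R) fun ρ T => F (mix f (pos p) ρ T)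
    have e2 : nc (fun x : (E → R) × (E → R) => F (mix f (pos p) x.1 x.2)) = nc F * A := by
      have e3 := nc_equiv (exch f (pos p)) fun x : (E → R) × (E → R) => F x.1 ∧ True
      have e4 := nc_prod_and (β := E → R) F fun _ => True
      rw [nc_true fun _ => trivial] at e4
      rw [hA, ← e4, ← e3]
      exact nc_congr fun x => ⟨fun h => ⟨h, trivial⟩, fun h => h.1⟩
    rw [e2] at e1
    refine Nat.le_of_mul_le_mul_left ?_ hApos
    calc A * A = ∑ _ρ : E → R, A := by
          rw [Finset.sum_const, Finset.card_univ, smul_eq_mul]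
      _ ≤ ∑ ρ : E → R, 2 * D * nc fun T : E → R => F (mix f (pos p) ρ T) :=
          Finset.sum_le_sum fun ρ _ => h1 ρ p
      _ = 2 * D * (nc F * A) := by rw [← Finset.mul_sum, e1]
      _ = A * (2 * D * nc F) := by ring
  -- average over the positive graphs
  by_contra hcon
  push Not at hcon
  have e1 := nc_prod (α := E → R) (β := P) fun ρ p => C.Proof (f.gr ρ (pos p)) (f.vis ρ) out
  have e2 := nc_prod (α := P) (β := E → R) fun p ρ => C.Proof (f.gr ρ (pos p)) (f.vis ρ) out
  have e3 : nc (fun x : (E → R) × P => C.Proof (f.gr x.1 (pos x.2)) (f.vis x.1) out) =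
      nc fun x : P × (E → R) => C.Proof (f.gr x.2 (pos x.1)) (f.vis x.2) out :=
    nc_equiv (Equiv.prodComm (E → R) P)
      fun x : P × (E → R) => C.Proof (f.gr x.2 (pos x.1)) (f.vis x.2) out
  have e4 : Fintype.card P * A ≤ 2 * D * ∑ p : P, nc fun ρ : E → R =>
      C.Proof (f.gr ρ (pos p)) (f.vis ρ) out := by
    rw [Finset.mul_sum]
    calc Fintype.card P * A = ∑ _p : P, A := by
          rw [Finset.sum_const, Finset.card_univ, smul_eq_mul]
      _ ≤ _ := Finset.sum_le_sum fun p _ => h2 p
  have e5 : (2 * D * ∑ ρ : E → R, nc fun p : P => C.Proof (f.gr ρ (pos p)) (f.vis ρ) out) <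
      Fintype.card P * A := by
    rw [Finset.mul_sum]
    calc _ < ∑ _ρ : E → R, Fintype.card P := by
          refine Finset.sum_lt_sum_of_nonempty ?_ fun ρ _ => hcon ρ
          rw [← Finset.card_pos, Finset.card_univ]
          exact hApos
      _ = Fintype.card P * A := by
          rw [Finset.sum_const, Finset.card_univ, smul_eq_mul, mul_comm]
  rw [← e1, e3, e2] at e5
  omega

end Pool.Agent.H78.FR
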