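import Pool.Agent.H9.NW.Core
import Pool.Agent.H78.FR.Place

/-!
The finite form of the bound for random absent pairs.
-/

namespace Pool.Agent.H78.FR

open Finset
open Pool.Agent.H25 Pool.Agent.H25.NM Pool.Agent.H9.NW

set_option linter.unusedSectionVars false

/-- **Finite form.** -/
theorem core {c b t u r n a w s Q m h D : ℕ} [NeZero Q]
    (hm : 2 ≤ m) (hh : 1 ≤ h) (hQ : m * m ≤ Q) (hb : 32 * (h * m) ≤ b) (ht : 0 < t)
    (hn : c * (c * (b * t)) + u + 2 * r ≤ n) (h3 : 3 ≤ c * c + u)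
    (ha1 : (c * (c * (b * t)) + u) ^ 2 ≤ a) (ha2 : a ≤ r * r) (hD : 1 ≤ D)
    (hw : 2 * D * (c * b * (c * b) * (Fintype.card (Sym2 (Fin n)) - t * t) ^ w) ≤
      Fintype.card (Sym2 (Fin n)) ^ w)
    (hcl : 16 * D * (c * b) ^ c * (Q - 1) ^ (c.choose 2) ≤ Q ^ (c.choose 2))
    {S : ℕ} (hS : (c * b * (c * b) + s) * (c * b * (c * b) + s + 1) ≤ S)
    (he1 : 16 * D * (S * ((m + 1) ^ 2 * 2 ^ m)) ≤ 32 ^ (m + 1))
    (he2 : 16 * D * (S * (c * b + 1) ^ m) ≤ 2 ^ h)
    (C : Circuit n s) (out : Fin s)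
    (hsound : ∀ G : SimpleGraph (Fin n), a ≤ G.edgeSet.ncard →
      G.edgeSet.ncard ≤ a + c * b * (c * b) → G.CliqueFree (c * c + u) → ¬ C.Proof G univ out)
    (hcomp : ∀ G : SimpleGraph (Fin n), a ≤ G.edgeSet.ncard →
      G.edgeSet.ncard ≤ a + c * b * (c * b) → ¬ G.CliqueFree (c * c + u) →
      Fintype.card (Fin w → Sym2 (Fin n)) ≤
        D * nc fun z : Fin w → Sym2 (Fin n) => C.Proof G (univ \ univ.image z) out) :
    False := by
  classical
  obtain ⟨J, hJ⟩ := exists_filling (c := c) (b := b) (t := t) (u := u) (r := r) ha1 ha2 ht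
  obtain ⟨ι⟩ : Nonempty (Vx c b t u r ↪ Fin n) := by
    refine Function.Embedding.nonempty_of_card_le ?_
    simp only [Fintype.card_sum, Fintype.card_prod, Fintype.card_fin]
    omega
  set f := frame J ι with hf
  have hcK : Fintype.card (Pr c b) ≤ c * b * (c * b) := by
    refine (Fintype.card_subtype_le _).trans ?_
    simp only [Fintype.card_prod, Fintype.card_fin]
    exact le_refl _
  have hwin : ∀ (ρ : Pr c b → Fin t × Fin t) (x : SimpleGraph (Fin c × Fin b)),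
      a ≤ (f.gr ρ x).edgeSet.ncard ∧ (f.gr ρ x).edgeSet.ncard ≤ a + c * b * (c * b) := by
    intro ρ x
    obtain ⟨g1, g2⟩ := frame_edges ι hJ ρ x
    exact ⟨g1, g2.trans (Nat.add_le_add_left hcK _)⟩
  have : NeZero t := ⟨ht.ne'⟩
  have hn0 : 0 < n := by
    rcases Nat.eq_zero_or_pos n with h0 | h0
    · exfalso
      have : c * c + u = 0 := by
        have h1 : c * (c * (b * t)) + u + 2 * r = 0 := by omega
        have h2 : c * (c * (b * t)) = 0 := by omega
        have hb0 : 0 < b * t := Nat.mul_pos (by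
          have : 1 ≤ h * m := Nat.one_le_iff_ne_zero.2 (Nat.mul_ne_zero (by omega) (by omega))
          omega) ht
        rcases Nat.mul_eq_zero.1 h2 with h | h
        · rw [h]
          omega
        · rcases Nat.mul_eq_zero.1 h with h | h
          · rw [h]
            omega
          · omega
      omega
    · exact h0
  have hMpos : 0 < Fintype.card (Fin w → Sym2 (Fin n)) := by
    have : Nonempty (Fin w → Sym2 (Fin n)) := ⟨fun _ => s(⟨0, hn0⟩, ⟨0, hn0⟩)⟩
    exact Fintype.card_pos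
  obtain ⟨ρ, hρ⟩ := exists_place' f C out (fun p : Fin c → Fin b => cq (tr p)) (r := w) (D := D)
    (by
      intro ρ p
      obtain ⟨g1, g2⟩ := hwin ρ (cq (tr p))
      exact hcomp _ g1 g2 (frame_planted ι h3 ht p)) hMpos (by
      refine le_trans (Nat.mul_le_mul_left _ ?_) hw
      rw [Fintype.card_prod, Fintype.card_fin]
      exact Nat.mul_le_mul_right _ hcK)
  set F : SimpleGraph (Fin c × Fin b) → Prop := fun x => C.Proof (f.gr ρ x) (f.vis ρ) out with hF
  have hsize : MonoSize S F := by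
    have h1 := f.monoSize C ρ out
    obtain ⟨g, hg, i, hi, hgi⟩ := h1
    set K := Fintype.card (Pr c b) with hK
    have hle : (K + s) * (K + s + 1) ≤ S :=
      le_trans (Nat.mul_le_mul (by omega) (by omega)) hS
    -- pad the program
    refine ⟨fun j x => if j < (K + s) * (K + s + 1) then g j x else False, ?_, i, hi.trans_le hle,
      fun x => ?_⟩
    · intro j _
      by_cases hj : j < (K + s) * (K + s + 1)
      · rcases hg j hj with ⟨y, z, h1⟩ | h1 | ⟨j', k', hj', hk', h1⟩ | ⟨T, hT, h1⟩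
        · exact Or.inl ⟨y, z, fun x => by simp only [if_pos hj]; exact h1 x⟩
        · exact Or.inr (Or.inl fun x => by simp only [if_pos hj]; exact h1 x)
        · refine Or.inr (Or.inr (Or.inl ⟨j', k', hj', hk', fun x => ?_⟩))
          simp only [if_pos hj, if_pos (hj'.trans hj), if_pos (hk'.trans hj)]
          exact h1 x
        · refine Or.inr (Or.inr (Or.inr ⟨T, hT, fun x => ?_⟩))
          simp only [if_pos hj]
          rw [h1]
          refine exists_congr fun k' => and_congr_right fun hk' => ?_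
          simp only [if_pos ((hT k' hk').trans hj)]
      · exact MGate.of_false fun x => by simp only [if_neg hj, not_false_iff]
    · simp only [if_pos hi]
      exact hgi x
  -- positive graphs
  have hP0 : 0 < b := by
    have : 1 ≤ h * m := Nat.one_le_iff_ne_zero.2 (Nat.mul_ne_zero (by omega) (by omega))
    omega
  have : Nonempty (Fin b) := ⟨⟨0, hP0⟩⟩
  set P := Fintype.card (Fin c → Fin b) with hP
  have hPpos : 0 < P := Fintype.card_pos
  have hgood : P ≤ 2 * D * nc (fun p : Fin c → Fin b => F (cq (tr p))) := hρ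
  -- negative graphs
  set Ω := Fintype.card (Sym2 (Fin c × Fin b) → Fin Q) with hΩ
  have hΩpos : 0 < Ω := Fintype.card_pos
  have hneg : 16 * D * nc (fun ω : Sym2 (Fin c × Fin b) → Fin Q => F (gr (NP.nz Q) ω)) ≤ Ω := by
    have h1 : nc (fun ω : Sym2 (Fin c × Fin b) → Fin Q => F (gr (NP.nz Q) ω)) ≤
        nc (fun ω : Sym2 (Fin c × Fin b) → Fin Q =>
          ¬ (gr (NP.nz Q) ω : SimpleGraph (Fin c × Fin b)).CliqueFree c) := by
      refine nc_mono fun ω hω hfree => ?_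
      obtain ⟨g1, g2⟩ := hwin ρ (gr (NP.nz Q) ω)
      exact hsound _ g1 g2 (frame_cliqueFree ι h3 hfree) (Circuit.Proof.mono (Finset.subset_univ _) hω)
    have h2 := nc_dense_clique (V := Fin c × Fin b) Q c
    rw [Fintype.card_prod, Fintype.card_fin, Fintype.card_fin, ← hΩ] at h2
    have hQp : 0 < Q ^ (c.choose 2) := Nat.pow_pos (Nat.pos_of_ne_zero (NeZero.ne Q))
    refine Nat.le_of_mul_le_mul_right ?_ hQp
    calc 16 * D * nc (fun ω : Sym2 (Fin c × Fin b) → Fin Q => F (gr (NP.nz Q) ω)) * Q ^ (c.choose 2)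
        ≤ 16 * D * nc (fun ω : Sym2 (Fin c × Fin b) → Fin Q =>
          ¬ (gr (NP.nz Q) ω : SimpleGraph (Fin c × Fin b)).CliqueFree c) * Q ^ (c.choose 2) :=
          Nat.mul_le_mul_right _ (Nat.mul_le_mul_left _ h1)
      _ = 16 * D * (nc (fun ω : Sym2 (Fin c × Fin b) → Fin Q =>
          ¬ (gr (NP.nz Q) ω : SimpleGraph (Fin c × Fin b)).CliqueFree c) * Q ^ (c.choose 2)) := by
          ring
      _ ≤ 16 * D * ((c * b) ^ c * (Q - 1) ^ (c.choose 2) * Ω) := Nat.mul_le_mul_left _ h2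
      _ = (16 * D * (c * b) ^ c * (Q - 1) ^ (c.choose 2)) * Ω := by ring
      _ ≤ Q ^ (c.choose 2) * Ω := Nat.mul_le_mul_right _ hcl
      _ = Ω * Q ^ (c.choose 2) := by ring
  -- the block lemma
  have hB := NP.blockHyp_dense (k := c) (w := b) (Q := Q) m h (by omega) hh hQ hb
  have hmain := hB.main hm hsize
  rw [nc_prod_and (fun p : Fin c → Fin b => F (cq (tr p)))
    fun ω : Sym2 (Fin c × Fin b) → Fin Q => ¬ F (gr (NP.nz Q) ω), ← hP, ← hΩ] at hmain
  have hnot := nc_add_nc_not fun ω : Sym2 (Fin c × Fin b) → Fin Q => F (gr (NP.nz Q) ω)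
  rw [← hΩ] at hnot
  -- the error term
  set η : ℝ := (1 / 32 : ℝ) ^ (m + 1) with hη
  have hDr : (1 : ℝ) ≤ D := by exact_mod_cast hD
  have hε : 8 * (D : ℝ) * ((S : ℝ) * ((m + 1) ^ 2 * 2 ^ m * η +
      small (Fin c × Fin b) m / ((2 ^ h : ℕ) : ℝ))) ≤ 1 := by
    have g1 : 16 * (D : ℝ) * ((S : ℝ) * ((m + 1) ^ 2 * 2 ^ m * η)) ≤ 1 := by
      have e1 : (16 : ℝ) * D * ((S : ℝ) * ((m + 1) ^ 2 * 2 ^ m)) ≤ 32 ^ (m + 1) := by
        exact_mod_cast he1
      have e2 : η * 32 ^ (m + 1) = 1 := by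
        rw [hη, ← mul_pow]
        norm_num
      have e3 : (0 : ℝ) ≤ η := by
        rw [hη]
        positivity
      have e4 := mul_le_mul_of_nonneg_left e1 e3
      rw [e2] at e4
      linarith
    have g2 : 16 * (D : ℝ) * ((S : ℝ) * (small (Fin c × Fin b) m / ((2 ^ h : ℕ) : ℝ))) ≤ 1 := by
      have e3 := NP.small_le (Fin c × Fin b) m
      rw [Fintype.card_prod, Fintype.card_fin, Fintype.card_fin] at e3
      have e4 : 16 * D * (S * small (Fin c × Fin b) m) ≤ 2 ^ h :=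
        le_trans (Nat.mul_le_mul_left _ (Nat.mul_le_mul_left _ e3)) he2
      have e5 : (16 : ℝ) * D * ((S : ℝ) * small (Fin c × Fin b) m) ≤ ((2 ^ h : ℕ) : ℝ) := by
        exact_mod_cast e4
      have e6 : (0 : ℝ) < ((2 ^ h : ℕ) : ℝ) := by positivity
      rw [← mul_div_assoc, ← mul_div_assoc, div_le_iff₀ e6]
      linarith
    have g3 : 8 * (D : ℝ) * ((S : ℝ) * ((m + 1) ^ 2 * 2 ^ m * η +
        small (Fin c × Fin b) m / ((2 ^ h : ℕ) : ℝ))) =
        (16 * (D : ℝ) * ((S : ℝ) * ((m + 1) ^ 2 * 2 ^ m * η)) +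
          16 * (D : ℝ) * ((S : ℝ) * (small (Fin c × Fin b) m / ((2 ^ h : ℕ) : ℝ)))) / 2 := by ring
    rw [g3]
    linarith
  -- conclusion
  set X := nc (fun p : Fin c → Fin b => F (cq (tr p))) with hX
  set Y := nc (fun ω : Sym2 (Fin c × Fin b) → Fin Q => F (gr (NP.nz Q) ω)) with hY
  set Y' := nc (fun ω : Sym2 (Fin c × Fin b) → Fin Q => ¬ F (gr (NP.nz Q) ω)) with hY'
  set ε : ℝ := (S : ℝ) * ((m + 1) ^ 2 * 2 ^ m * η +
      small (Fin c × Fin b) m / ((2 ^ h : ℕ) : ℝ)) with hεdef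
  have hPr : (0 : ℝ) < P := by exact_mod_cast hPpos
  have hΩr : (0 : ℝ) < Ω := by exact_mod_cast hΩpos
  have k1 : (P : ℝ) ≤ 2 * D * X := by exact_mod_cast hgood
  have k2 : (16 : ℝ) * D * Y ≤ Ω := by exact_mod_cast hneg
  have k3 : (Y : ℝ) + Y' = Ω := by exact_mod_cast hnot
  have k4 : (X : ℝ) * Y' ≤ P * Y + ε * (P * Ω) := by
    push_cast at hmain
    refine hmain.trans (le_of_eq ?_)
    rw [hεdef]
  have hY0 : (0 : ℝ) ≤ Y := Nat.cast_nonneg Y
  have k5 : (15 / 16 : ℝ) * Ω ≤ Y' := by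
    have : (Y : ℝ) ≤ D * Y := by nlinarith
    linarith
  -- multiply by 2 D
  have k6 : (P : ℝ) * (15 / 16 * Ω) ≤ 2 * D * X * Y' :=
    mul_le_mul k1 k5 (by positivity) (by positivity)
  have k7 : 2 * (D : ℝ) * (P * Y) ≤ P * (Ω / 8) := by
    have := mul_le_mul_of_nonneg_left k2 hPr.le
    linarith
  have k8 : 2 * (D : ℝ) * (ε * (P * Ω)) ≤ 1 / 4 * (P * Ω) := by
    have h0 : (0 : ℝ) ≤ P * Ω := by positivity
    have := mul_le_mul_of_nonneg_right hε h0
    linarith
  have k9 : 2 * (D : ℝ) * (X * Y') ≤ 2 * D * (P * Y + ε * (P * Ω)) :=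
    mul_le_mul_of_nonneg_left k4 (by positivity)
  have k10 : (0 : ℝ) < P * Ω := by positivity
  nlinarith

end Pool.Agent.H78.FR
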