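import Pool.Agent.H9.NW.Hide
import Pool.Agent.H25.NP.Main

/-!
Random tuples hit a uniformly random transversal of disjoint groups.
-/

namespace Pool.Agent.H78.FR

open Finset
open Pool.Agent.H25 Pool.Agent.H25.NM Pool.Agent.H9.NW

set_option linter.unusedSectionVars false

section

variable {E R Z : Type} [Fintype E] [DecidableEq E] [Fintype R] [DecidableEq R] [AddGroup R]
  [Fintype Z] [DecidableEq Z]

/-- Translation of the places in every group. -/
def shift (h : E → R) : Equiv.Perm (E × R) where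
  toFun := fun q => (q.1, h q.1 + q.2)
  invFun := fun q => (q.1, -h q.1 + q.2)
  left_inv := fun q => by simp
  right_inv := fun q => by simp

/-- The translation as a permutation of `Z`. -/
noncomputable def tau (φ : E × R ↪ Z) (h : E → R) : Equiv.Perm Z :=
  (shift h).viaFintypeEmbedding φ

theorem tau_apply (φ : E × R ↪ Z) (h : E → R) (e : E) (y : R) :
    tau φ h (φ (e, y)) = φ (e, h e + y) := by
  unfold tau
  rw [Equiv.Perm.viaFintypeEmbedding_apply_image]
  rfl

/-- If a property of tuples `z` implies a property `F` of every transversal hit by `z`, its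
probability is at most the probability of `F` plus the probability that `z` misses a group. -/
theorem hit (φ : E × R ↪ Z) {r : ℕ} (Good : (Fin r → Z) → Prop) (F : (E → R) → Prop)
    (hF : ∀ (z : Fin r → Z) (T : E → R), (∀ e, ∃ i, z i = φ (e, T e)) → Good z → F T) :
    nc Good * Fintype.card (E → R) ≤
      nc (fun z : Fin r → Z => ∃ e, ∀ i y, z i ≠ φ (e, y)) * Fintype.card (E → R) +
        Fintype.card (Fin r → Z) * nc F := by
  classical
  have h1 : nc Good * Fintype.card (E → R) =
      ∑ z : Fin r → Z, nc fun h : E → R => Good fun i => tau φ h (z i) := by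
    have e1 := nc_prod (α := E → R) (β := Fin r → Z) fun h z => Good fun i => tau φ h (z i)
    have e2 : ∀ h : E → R, nc (fun z : Fin r → Z => Good fun i => tau φ h (z i)) = nc Good := by
      intro h
      exact nc_equiv (Equiv.arrowCongr (Equiv.refl (Fin r)) (tau φ h)) Good
    rw [Finset.sum_congr rfl fun h _ => e2 h, Finset.sum_const, Finset.card_univ,
      smul_eq_mul] at e1
    have e3 := nc_prod (α := Fin r → Z) (β := E → R) fun z h => Good fun i => tau φ h (z i)
    rw [← e3, mul_comm, ← e1]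
    exact nc_equiv (Equiv.prodComm (E → R) (Fin r → Z))
      fun x : (Fin r → Z) × (E → R) => Good fun i => tau φ x.2 (x.1 i)
  rw [h1]
  have h2 : ∀ z : Fin r → Z, (nc fun h : E → R => Good fun i => tau φ h (z i)) ≤
      (if ∃ e, ∀ i y, z i ≠ φ (e, y) then Fintype.card (E → R) else 0) + nc F := by
    intro z
    by_cases hz : ∃ e, ∀ i y, z i ≠ φ (e, y)
    · rw [if_pos hz]
      exact (nc_le_card _).trans (Nat.le_add_right _ _)
    · rw [if_neg hz, zero_add]
      push Not at hz
      choose i y hiy using hz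
      have e1 : nc (fun h : E → R => F (h + y)) = nc F := nc_equiv (Equiv.addRight y) F
      rw [← e1]
      refine nc_mono fun h hg => hF _ _ (fun e => ⟨i e, ?_⟩) hg
      rw [hiy e, tau_apply]
      rfl
  refine (Finset.sum_le_sum fun z _ => h2 z).trans ?_
  rw [Finset.sum_add_distrib, Finset.sum_const, Finset.card_univ, smul_eq_mul, ← Finset.sum_filter,
    Finset.sum_const, smul_eq_mul, nc_eq fun z : Fin r → Z => ∃ e, ∀ i y, z i ≠ φ (e, y)]

/-- The number of tuples which miss a group. -/
theorem nc_miss_le (φ : E × R ↪ Z) (r : ℕ) :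
    nc (fun z : Fin r → Z => ∃ e, ∀ i y, z i ≠ φ (e, y)) ≤
      Fintype.card E * (Fintype.card Z - Fintype.card R) ^ r := by
  classical
  have h1 : nc (fun z : Fin r → Z => ∃ e, ∀ i y, z i ≠ φ (e, y)) ≤
      ∑ e : E, nc fun z : Fin r → Z => ∀ i y, z i ≠ φ (e, y) := by
    refine le_trans (nc_mono (q := fun z => ∃ e ∈ (univ : Finset E), ∀ i y, z i ≠ φ (e, y)) ?_)
      (nc_bex_le _ _)
    rintro z ⟨e, he⟩
    exact ⟨e, Finset.mem_univ _, he⟩
  refine h1.trans (le_of_eq ?_)
  have h2 : ∀ e : E, (nc fun z : Fin r → Z => ∀ i y, z i ≠ φ (e, y)) =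
      (Fintype.card Z - Fintype.card R) ^ r := by
    intro e
    have e1 : (univ.filter fun z : Fin r → Z => ∀ i y, z i ≠ φ (e, y)) =
        Fintype.piFinset fun _ : Fin r => univ \ univ.image fun y => φ (e, y) := by
      ext z
      simp only [Finset.mem_filter, Finset.mem_univ, true_and, Fintype.mem_piFinset,
        Finset.mem_sdiff, Finset.mem_image, not_exists]
      exact ⟨fun h i y hy => h i y hy.symm, fun h i y hy => h i y hy.symm⟩
    rw [nc_eq, e1, Fintype.card_piFinset, Finset.prod_const, Finset.card_univ, Fintype.card_fin,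
      Finset.card_univ_sdiff, Finset.card_image_of_injective, Finset.card_univ]
    intro y y' h
    exact congrArg Prod.snd (φ.injective h)
  rw [Finset.sum_congr rfl fun e _ => h2 e, Finset.sum_const, Finset.card_univ, smul_eq_mul]

end

/-- Numbers. -/
theorem two_mul_sub_pow {M t q : ℕ} (hq : 1 ≤ q) (ht : t ≤ M) (h : M ≤ q * t) :
    2 * (M - t) ^ q ≤ M ^ q := by
  have h1 : (M - t) * q ≤ M * (q - 1) := by
    obtain ⟨d, rfl⟩ := Nat.exists_eq_add_of_le ht
    obtain ⟨q', rfl⟩ := Nat.exists_eq_add_of_le hq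
    rw [Nat.add_sub_cancel_left, Nat.add_sub_cancel_left]
    nlinarith
  have h2 := Nat.pow_le_pow_left h1 q
  rw [mul_pow, mul_pow] at h2
  have h3 := NP.two_mul_pred_pow q hq
  have h4 : 0 < q ^ q := Nat.pow_pos hq
  refine Nat.le_of_mul_le_mul_right ?_ h4
  calc 2 * (M - t) ^ q * q ^ q = 2 * ((M - t) ^ q * q ^ q) := by ring
    _ ≤ 2 * (M ^ q * (q - 1) ^ q) := Nat.mul_le_mul_left _ h2
    _ = M ^ q * (2 * (q - 1) ^ q) := by ring
    _ ≤ M ^ q * q ^ q := Nat.mul_le_mul_left _ h3

theorem two_pow_mul_sub_pow {M t q r h : ℕ} (hq : 1 ≤ q) (ht : t ≤ M) (hM : M ≤ q * t)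
    (hr : q * h ≤ r) : 2 ^ h * (M - t) ^ r ≤ M ^ r := by
  obtain ⟨d, rfl⟩ := Nat.exists_eq_add_of_le hr
  have h1 := Nat.pow_le_pow_left (two_mul_sub_pow hq ht hM) h
  rw [mul_pow, ← pow_mul, ← pow_mul] at h1
  rw [pow_add, pow_add, ← mul_assoc]
  exact Nat.mul_le_mul h1 (Nat.pow_le_pow_left (Nat.sub_le _ _) d)

end Pool.Agent.H78.FR
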