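import Pool.Agent.H78.FR.Core

/-!
The choice of the parameters.
-/

namespace Pool.Agent.H78.FR

open Finset
open Pool.Agent.H25 Pool.Agent.H25.NM Pool.Agent.H9.NW

/-- Random tuples hit every group. -/
theorem places {n a t A l w B : ℕ} (ht : 0 < t) (ha0 : 0 < a) (han : 9 * a ≤ n ^ 2)
    (hat : a < 16 * (A * A) * ((t + 1) * (t + 1))) (hAA : 1 ≤ A * A) (htS : 4 * t * (4 * t) ≤ a)
    (hw : 512 * (l * (A * A)) * (n ^ 2 + w) ≤ w * a) (hB : 16 * B ≤ 2 ^ l * 2 ^ l) :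
    2 * 2 ^ l * (B * (Fintype.card (Sym2 (Fin n)) - t * t) ^ w) ≤
      Fintype.card (Sym2 (Fin n)) ^ w := by
  set M := Fintype.card (Sym2 (Fin n)) with hM
  have hn1 : 1 ≤ n := by
    rcases Nat.eq_zero_or_pos n with h | h
    · rw [h] at han
      omega
    · exact h
  have hn2 : n ^ 2 = n * n := sq n
  have hM2 : 2 * M = n * n + n := by
    have h1 : 2 ∣ (n + 1) * n := by
      have := (Nat.even_mul_succ_self n).two_dvd
      rwa [mul_comm] at this
    rw [hM, Sym2.card, Fintype.card_fin, Nat.choose_two_right, Nat.add_sub_cancel,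
      Nat.mul_div_cancel' h1]
    ring
  have hnn : n ≤ n * n := Nat.le_mul_of_pos_left _ hn1
  have hMn : M ≤ n ^ 2 := by omega
  have htM : t * t ≤ M := by
    have h2 : 4 * t * (4 * t) = 16 * (t * t) := by ring
    omega
  have htt : 0 < t * t := Nat.mul_pos ht ht
  have hat' : a ≤ 64 * (A * A) * (t * t) := by
    have h0 : t + 1 ≤ 2 * t := by omega
    have h1 : (t + 1) * (t + 1) ≤ 4 * (t * t) := by
      calc (t + 1) * (t + 1) ≤ (2 * t) * (2 * t) := Nat.mul_le_mul h0 h0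
        _ = 4 * (t * t) := by ring
    have h2 : 16 * (A * A) * ((t + 1) * (t + 1)) ≤ 16 * (A * A) * (4 * (t * t)) :=
      Nat.mul_le_mul_left _ h1
    have h3 : 16 * (A * A) * (4 * (t * t)) = 64 * (A * A) * (t * t) := by ring
    omega
  set X := M / (t * t) with hX
  have hX1 : X * (t * t) ≤ M := Nat.div_mul_le_self _ _
  have hX2 : M ≤ (X + 1) * (t * t) := by
    have := Nat.lt_mul_div_succ M htt
    rw [← hX] at this
    calc M ≤ t * t * (X + 1) := this.le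
      _ = (X + 1) * (t * t) := mul_comm _ _
  have hXw : (X + 1) * (4 * l) ≤ w := by
    refine Nat.le_of_mul_le_mul_right ?_ ha0
    have g1 : X * a ≤ 64 * (A * A) * n ^ 2 := by
      calc X * a ≤ X * (64 * (A * A) * (t * t)) := Nat.mul_le_mul_left _ hat'
        _ = 64 * (A * A) * (X * (t * t)) := by ring
        _ ≤ 64 * (A * A) * n ^ 2 := Nat.mul_le_mul_left _ (hX1.trans hMn)
    have g2 : 1 * a ≤ (A * A) * n ^ 2 := Nat.mul_le_mul hAA (by omega)
    calc (X + 1) * (4 * l) * a = 4 * l * (X * a + 1 * a) := by ring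
      _ ≤ 4 * l * (64 * (A * A) * n ^ 2 + (A * A) * n ^ 2) :=
          Nat.mul_le_mul_left _ (Nat.add_le_add g1 g2)
      _ = 260 * (l * (A * A)) * n ^ 2 := by ring
      _ ≤ 512 * (l * (A * A)) * n ^ 2 :=
          Nat.mul_le_mul_right _ (Nat.mul_le_mul_right _ (by norm_num))
      _ ≤ 512 * (l * (A * A)) * (n ^ 2 + w) := Nat.mul_le_mul_left _ (Nat.le_add_right _ _)
      _ ≤ w * a := hw
  have h1 := two_pow_mul_sub_pow (r := w) (h := 4 * l) (Nat.succ_le_succ (Nat.zero_le X)) htM hX2 hXw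
  refine le_trans ?_ h1
  have h2 : 2 * 2 ^ l * B ≤ 2 ^ (4 * l) := by
    calc 2 * 2 ^ l * B ≤ 2 ^ l * (16 * B) := by
          rw [mul_comm 2, mul_assoc]
          exact Nat.mul_le_mul_left _ (Nat.mul_le_mul_right _ (by norm_num))
      _ ≤ 2 ^ l * (2 ^ l * 2 ^ l) := Nat.mul_le_mul_left _ hB
      _ = 2 ^ (3 * l) := by
          rw [← pow_add, ← pow_add]
          congr 1
          ring
      _ ≤ 2 ^ (4 * l) := Nat.pow_le_pow_right (by norm_num) (by omega)
  rw [← mul_assoc]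
  exact Nat.mul_le_mul_right _ h2

/-- **Main theorem.** -/
theorem main {n L l k a w s : ℕ} (hL : 1 ≤ L) (hLl : L ≤ l) (hnL : n ≤ 2 ^ L)
    (hk : 2 ^ 16 * l ^ 4 * L ^ 2 ≤ k) (hka : 2 * k ^ 2 ≤ a) (han : 9 * a ≤ n ^ 2)
    (hs : s ≤ 2 ^ l) (C : Circuit n s) (out : Fin s)
    (hsound : ∀ G : SimpleGraph (Fin n), a ≤ G.edgeSet.ncard →
      G.edgeSet.ncard ≤ a + 2 ^ 38 * l ^ 8 * L ^ 4 → G.CliqueFree k → ¬ C.Proof G univ out)
    (hcomp : ∀ G : SimpleGraph (Fin n), a ≤ G.edgeSet.ncard →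
      G.edgeSet.ncard ≤ a + 2 ^ 38 * l ^ 8 * L ^ 4 → ¬ G.CliqueFree k →
      Fintype.card (Fin w → Sym2 (Fin n)) ≤
        2 ^ l * nc fun z : Fin w → Sym2 (Fin n) => C.Proof G (univ \ univ.image z) out) :
    w * a < 2 ^ 63 * l ^ 13 * L ^ 6 * (n ^ 2 + w) := by
  by_contra hcon
  push Not at hcon
  have hl : 1 ≤ l := hL.trans hLl
  set c := 2 ^ 8 * l ^ 2 * L with hc
  set b := 2 ^ 11 * l ^ 2 * L with hb
  set A := 2 ^ 27 * l ^ 6 * L ^ 3 with hA
  set S := Nat.sqrt a with hSdef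
  set t := S / (4 * A) with htdef
  have hA1 : 1 ≤ A := by
    rw [hA]
    exact Nat.one_le_iff_ne_zero.2 (by positivity)
  have hcA : ∀ y, c * (c * (b * y)) = A * y := by
    intro y
    rw [hc, hb, hA]
    ring
  have hS1 : S * S ≤ a := Nat.sqrt_le a
  have hS2 : a < (S + 1) * (S + 1) := Nat.lt_succ_sqrt a
  have hk1 : 1 ≤ k := by
    have : 1 ≤ 2 ^ 16 * l ^ 4 * L ^ 2 := Nat.one_le_iff_ne_zero.2 (by positivity)
    omega
  have hn1 : 1 ≤ n ^ 2 := by
    have : 1 ≤ k ^ 2 := Nat.one_le_pow _ _ hk1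
    omega
  have hw0 : 0 < w := by
    rcases Nat.eq_zero_or_pos w with h0 | h0
    · exfalso
      rw [h0, zero_mul] at hcon
      have : 0 < 2 ^ 63 * l ^ 13 * L ^ 6 * (n ^ 2 + 0) := by positivity
      omega
    · exact h0
  set U := 2 ^ 63 * l ^ 13 * L ^ 6 with hU
  have hUA : 512 * (l * (A * A)) = U := by
    rw [hU, hA]
    ring
  have hAA : 1 ≤ A * A := Nat.mul_pos hA1 hA1
  have hUa : U ≤ a := by
    refine Nat.le_of_mul_le_mul_left ?_ hw0
    calc w * U = U * w := mul_comm _ _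
      _ ≤ U * (n ^ 2 + w) := Nat.mul_le_mul_left _ (by omega)
      _ ≤ w * a := hcon
  have hA2 : 64 * (A * A) * 1 ≤ a := by
    refine le_trans ?_ hUa
    rw [← hUA]
    have : 1 * (A * A) ≤ l * (A * A) := Nat.mul_le_mul_right _ hl
    omega
  -- the number of copies
  have ht1 : 4 * A * t ≤ S := Nat.mul_div_le _ _
  have ht2 : S < 4 * A * (t + 1) := Nat.lt_mul_div_succ _ (by omega)
  have ht3 : a < 16 * (A * A) * ((t + 1) * (t + 1)) := by
    calc a < (S + 1) * (S + 1) := hS2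
      _ ≤ (4 * A * (t + 1)) * (4 * A * (t + 1)) := Nat.mul_le_mul ht2 ht2
      _ = 16 * (A * A) * ((t + 1) * (t + 1)) := by ring
  have ht : 0 < t := by
    rcases Nat.eq_zero_or_pos t with h | h
    · exfalso
      rw [h] at ht3
      have : 0 < A * A := Nat.mul_pos hA1 hA1
      omega
    · exact h
  have hSbig : 100 ≤ S := by
    by_contra hlt
    push Not at hlt
    have h1 : (S + 1) * (S + 1) ≤ 100 * 100 := Nat.mul_le_mul (by omega) (by omega)
    have h2 : 2 ^ 27 ≤ A := by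
      rw [hA, mul_assoc]
      exact Nat.le_mul_of_pos_right _ (by positivity)
    have h3 : 2 ^ 27 * 2 ^ 27 ≤ A * A := Nat.mul_le_mul h2 h2
    norm_num at h3
    omega
  have hkS : 100 * k < 71 * (S + 1) := by
    by_contra hlt
    push Not at hlt
    have h1 : (71 * (S + 1)) * (71 * (S + 1)) ≤ (100 * k) * (100 * k) := Nat.mul_le_mul hlt hlt
    have h2 : 2 * (k * k) ≤ a := by
      rw [← sq]
      exact hka
    nlinarith
  have hnS : 3 * S ≤ n := by
    by_contra hlt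
    push Not at hlt
    have h1 : n * n < (3 * S) * (3 * S) := Nat.mul_self_lt_mul_self hlt
    have h2 : n ^ 2 = n * n := sq n
    nlinarith
  have hck : c * c ≤ k := by
    refine le_trans (le_of_eq ?_) hk
    rw [hc]
    ring
  obtain ⟨u, hu⟩ : ∃ u, k = c * c + u := Nat.exists_eq_add_of_le hck
  -- sizes
  set Z : ℕ := l ^ 4 * L ^ 2 with hZ
  have hZ1 : 1 ≤ Z := Nat.one_le_iff_ne_zero.2 (by positivity)
  have hcb : c * b = 2 ^ 19 * Z := by
    rw [hc, hb, hZ]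
    ring
  have hlZ : l ≤ Z := by
    calc l = l ^ 1 * 1 ^ 2 := by ring
      _ ≤ l ^ 4 * L ^ 2 := Nat.mul_le_mul (Nat.pow_le_pow_right hl (by norm_num))
          (Nat.pow_le_pow_left hL 2)
  have hcb2 : 4 * (c * b) ≤ n := by
    by_contra hlt
    push Not at hlt
    have h1 : n * n < (4 * (c * b)) * (4 * (c * b)) := Nat.mul_self_lt_mul_self hlt
    have h2 : n ^ 2 = n * n := sq n
    have h3 : (4 * (c * b)) * (4 * (c * b)) ≤ 64 * (A * A) * 1 := by
      rw [hcb, hA]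
      have : 4 * (2 ^ 19 * Z) ≤ 2 ^ 27 * l ^ 6 * L ^ 3 := by
        rw [hZ]
        calc 4 * (2 ^ 19 * (l ^ 4 * L ^ 2)) = 2 ^ 21 * (l ^ 4 * L ^ 2) := by ring
          _ ≤ 2 ^ 27 * (l ^ 6 * L ^ 3) := Nat.mul_le_mul (by norm_num)
              (Nat.mul_le_mul (Nat.pow_le_pow_right hl (by norm_num))
                (Nat.pow_le_pow_right hL (by norm_num)))
          _ = _ := by ring
      calc _ ≤ (2 ^ 27 * l ^ 6 * L ^ 3) * (2 ^ 27 * l ^ 6 * L ^ 3) := Nat.mul_le_mul this this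
        _ ≤ _ := by omega
    omega
  have hcb3 : c * b + 1 ≤ 2 ^ L := by
    have : 1 ≤ c * b := by
      rw [hcb]
      omega
    omega
  have hl2 : 2 ≤ l := by
    by_contra hlt
    have h1 : L = 1 := by omega
    rw [h1] at hcb3
    rw [hcb] at hcb3
    omega
  have hKs : (c * b * (c * b) + 2 ^ l) * (c * b * (c * b) + 2 ^ l + 1) ≤ 2 ^ (4 * l) := by
    have h1 : c * b * (c * b) ≤ 2 ^ (2 * l) / 16 := by
      rw [Nat.le_div_iff_mul_le (by norm_num)]
      calc c * b * (c * b) * 16 = (4 * (c * b)) * (4 * (c * b)) := by ring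
        _ ≤ n * n := Nat.mul_le_mul hcb2 hcb2
        _ ≤ 2 ^ L * 2 ^ L := Nat.mul_le_mul hnL hnL
        _ ≤ 2 ^ l * 2 ^ l := Nat.mul_le_mul (Nat.pow_le_pow_right (by norm_num) hLl)
            (Nat.pow_le_pow_right (by norm_num) hLl)
        _ = 2 ^ (2 * l) := by rw [two_mul, pow_add]
    have h2 : 2 ^ 19 ≤ 2 ^ l := by
      have h3 : 2 ^ 19 * 1 ≤ 2 ^ 19 * Z := Nat.mul_le_mul_left _ hZ1
      have h4 : 2 ^ L ≤ 2 ^ l := Nat.pow_le_pow_right (by norm_num) hLl
      omega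
    have h3 : 2 ^ (2 * l) = 2 ^ l * 2 ^ l := by rw [two_mul, pow_add]
    have h4 : 2 ^ 19 * 2 ^ l ≤ 2 ^ l * 2 ^ l := Nat.mul_le_mul_right _ h2
    have h5 : c * b * (c * b) + 2 ^ l + 1 ≤ 2 ^ (2 * l) := by
      rw [h3]
      rw [h3] at h1
      have := Nat.div_mul_le_self (2 ^ l * 2 ^ l) 16
      omega
    calc _ ≤ 2 ^ (2 * l) * 2 ^ (2 * l) := Nat.mul_le_mul (by omega) h5
      _ = 2 ^ (4 * l) := by
          rw [← pow_add]
          congr 1
          ring
  have : NeZero (16 * l ^ 2) := ⟨by positivity⟩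
  refine core (c := c) (b := b) (t := t) (u := u) (r := S + 1) (a := a) (w := w) (s := s)
    (Q := 16 * l ^ 2) (m := 4 * l) (h := 16 * (l * L)) (D := 2 ^ l) (by omega) ?_ ?_ ?_ ht ?_ ?_ ?_
    hS2.le Nat.one_le_two_pow ?_ ?_ (S := 2 ^ (4 * l)) ?_ ?_ ?_ C out ?_ ?_
  · have : 1 ≤ l * L := Nat.one_le_iff_ne_zero.2 (by positivity)
    omega
  · exact le_of_eq (by ring)
  · rw [hb]
    exact le_of_eq (by ring)
  · rw [hcA]
    have h1 : 4 * (A * t) ≤ S := by
      calc 4 * (A * t) = 4 * A * t := by ring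
        _ ≤ S := ht1
    omega
  · have : 2 ^ 16 * 1 ≤ 2 ^ 16 * Z := Nat.mul_le_mul_left _ hZ1
    have h2 : c * c = 2 ^ 16 * Z := by
      rw [hc, hZ]
      ring
    omega
  · rw [hcA]
    have h1 : 4 * (A * t) ≤ S := by
      calc 4 * (A * t) = 4 * A * t := by ring
        _ ≤ S := ht1
    have h2 : A * t + u ≤ S := by omega
    calc (A * t + u) ^ 2 ≤ S ^ 2 := Nat.pow_le_pow_left h2 2
      _ = S * S := sq S
      _ ≤ a := hS1
  · -- random tuples hit every group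
    have h1 : 4 * t * (4 * t) ≤ a := by
      have g1 : 4 * t ≤ S := by
        calc 4 * t = 4 * 1 * t := by ring
          _ ≤ 4 * A * t := Nat.mul_le_mul_right _ (Nat.mul_le_mul_left _ hA1)
          _ ≤ S := ht1
      exact (Nat.mul_le_mul g1 g1).trans hS1
    have h2 : 16 * (c * b * (c * b)) ≤ 2 ^ l * 2 ^ l := by
      calc 16 * (c * b * (c * b)) = (4 * (c * b)) * (4 * (c * b)) := by ring
        _ ≤ n * n := Nat.mul_le_mul hcb2 hcb2
        _ ≤ 2 ^ L * 2 ^ L := Nat.mul_le_mul hnL hnL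
        _ ≤ 2 ^ l * 2 ^ l := Nat.mul_le_mul (Nat.pow_le_pow_right (by norm_num) hLl)
            (Nat.pow_le_pow_right (by norm_num) hLl)
    exact places ht (by omega) han ht3 hAA h1 (by rw [hUA]; exact hcon) h2
  · have h1 : 2 * (16 * l ^ 2) * (L + 1) + 1 ≤ c := by
      have h2 : 1 ≤ l ^ 2 * L := Nat.one_le_iff_ne_zero.2 (by positivity)
      calc 2 * (16 * l ^ 2) * (L + 1) + 1 ≤ 2 * (16 * l ^ 2) * (L + L) + l ^ 2 * L :=
            Nat.add_le_add (Nat.mul_le_mul_left _ (by omega)) h2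
        _ = 65 * (l ^ 2 * L) := by ring
        _ ≤ 2 ^ 8 * (l ^ 2 * L) := Nat.mul_le_mul_right _ (by norm_num)
        _ = c := by
            rw [hc]
            ring
    have h3 := NP.clique_count (n := 4 * (c * b)) (k := c) (l := L) (Q := 16 * l ^ 2)
      (Nat.one_le_iff_ne_zero.2 (by positivity)) (hcb2.trans hnL) h1
    have h4 : l + 3 ≤ 2 * c := by
      have g1 : l * 1 ≤ l * (l * L) := Nat.mul_le_mul_left _ (Nat.mul_pos hl hL)
      have g2 : c = 2 ^ 8 * (l * (l * L)) := by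
        rw [hc]
        ring
      omega
    have h5 : 16 * 2 ^ l ≤ 2 * 4 ^ c := by
      calc 16 * 2 ^ l = 2 * 2 ^ (l + 3) := by ring
        _ ≤ 2 * 2 ^ (2 * c) := Nat.mul_le_mul_left _ (Nat.pow_le_pow_right (by norm_num) h4)
        _ = 2 * 4 ^ c := by
            rw [pow_mul]
            norm_num
    have h7 : ∀ y z : ℕ, 2 * (4 * y) ^ z = 2 * 4 ^ z * y ^ z := fun y z => by
      rw [mul_pow, mul_assoc]
    have h6 : 2 * (4 * (c * b)) ^ c = 2 * 4 ^ c * (c * b) ^ c := h7 _ _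
    rw [h6] at h3
    exact le_trans (Nat.mul_le_mul_right _ (Nat.mul_le_mul_right _ h5)) h3
  · exact le_trans (Nat.mul_le_mul (by omega) (by omega)) hKs
  · -- the first error term
    have h1 : (4 * l + 1) ^ 2 ≤ 2 ^ (8 * l) := by
      have h2 : 4 * l + 1 ≤ 2 ^ (4 * l) := Nat.lt_two_pow_self
      calc (4 * l + 1) ^ 2 ≤ (2 ^ (4 * l)) ^ 2 := Nat.pow_le_pow_left h2 2
        _ = 2 ^ (8 * l) := by
            rw [← pow_mul]
            congr 1
            ring
    calc 16 * 2 ^ l * (2 ^ (4 * l) * ((4 * l + 1) ^ 2 * 2 ^ (4 * l)))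
        ≤ 2 ^ 4 * 2 ^ l * (2 ^ (4 * l) * (2 ^ (8 * l) * 2 ^ (4 * l))) :=
          Nat.mul_le_mul (by norm_num) (Nat.mul_le_mul_left _ (Nat.mul_le_mul_right _ h1))
      _ = 2 ^ (4 + l + (4 * l + (8 * l + 4 * l))) := by rw [pow_add, pow_add, pow_add, pow_add]
      _ ≤ 2 ^ (5 * (4 * l + 1)) := Nat.pow_le_pow_right (by norm_num) (by omega)
      _ = 32 ^ (4 * l + 1) := by
          rw [pow_mul]
          norm_num
  · -- the second error term
    have h1 : l * 1 ≤ l * L := Nat.mul_le_mul_left _ hL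
    have h2 : 1 ≤ l * L := Nat.mul_pos hl hL
    calc 16 * 2 ^ l * (2 ^ (4 * l) * (c * b + 1) ^ (4 * l))
        ≤ 2 ^ 4 * 2 ^ l * (2 ^ (4 * l) * (2 ^ L) ^ (4 * l)) :=
          Nat.mul_le_mul (by norm_num) (Nat.mul_le_mul_left _ (Nat.pow_le_pow_left hcb3 _))
      _ = 2 ^ (4 + l + (4 * l + 4 * (l * L))) := by
          rw [← pow_mul, pow_add, pow_add, pow_add]
          congr 3
          ring
      _ ≤ 2 ^ (16 * (l * L)) := Nat.pow_le_pow_right (by norm_num) (by omega)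
  · intro G h1 h2 h3
    refine hsound G h1 (h2.trans (Nat.add_le_add_left (le_of_eq ?_) _)) (by rw [hu]; exact h3)
    rw [hcb, hZ]
    ring
  · intro G h1 h2 h3
    refine hcomp G h1 (h2.trans (Nat.add_le_add_left (le_of_eq ?_) _)) (by rw [hu]; exact h3)
    rw [hcb, hZ]
    ring

end Pool.Agent.H78.FR
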