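import Pool.Agent.H78.WS.WinS

/-!
Programs over literals as circuits, with their proofs: version for sets.
-/

set_option linter.unusedSectionVars false

namespace Pool.Agent.H78.FR.S

open Finset
open Pool.Agent.H25.NP hiding Circuit
open Pool.Agent.H29.NW.SC (Circuit)

variable {Y : Type} [Fintype Y] [DecidableEq Y] {s : ℕ}

/-- One more gate: a test if `t = 0`, a conjunction if `t = 1`, a disjunction otherwise. -/
def ext (C : Circuit Y s) (t : ℕ) (R : Finset Y) (T : Finset Y → Prop)
    (hT : ∀ G H : Finset Y, (∀ e ∈ R, e ∈ G ↔ e ∈ H) → T G → T H)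
    (I : Finset (Fin s)) : Circuit Y (s + 1) where
  leaf := C.leaf.map Fin.castSuccEmb ∪ (if t = 0 then {Fin.last s} else ∅)
  conj := C.conj.map Fin.castSuccEmb ∪ (if t = 1 then {Fin.last s} else ∅)
  reads := Fin.snoc (α := fun _ => _) C.reads R
  test := Fin.snoc (α := fun _ => _) C.test T
  ins := Fin.snoc (α := fun _ => _) (fun i => (C.ins i).map Fin.castSuccEmb) (I.map Fin.castSuccEmb)
  test_of_eq := by
    intro i
    refine Fin.lastCases ?_ (fun i => ?_) i
    · simp only [Fin.snoc_last]
      exact hT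
    · simp only [Fin.snoc_castSucc]
      exact C.test_of_eq i
  ins_lt := by
    intro i
    refine Fin.lastCases ?_ (fun i => ?_) i
    · intro j hj
      rw [Fin.snoc_last, Finset.mem_map] at hj
      obtain ⟨j', _, rfl⟩ := hj
      exact Fin.castSucc_lt_last j'
    · intro j hj
      rw [Fin.snoc_castSucc, Finset.mem_map] at hj
      obtain ⟨j', hj', rfl⟩ := hj
      exact Fin.castSucc_lt_castSucc_iff.2 (C.ins_lt i j' hj')

section

variable (C : Circuit Y s) (t : ℕ) (R : Finset Y) (T : Finset Y → Prop)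
    (hT : ∀ G H : Finset Y, (∀ e ∈ R, e ∈ G ↔ e ∈ H) → T G → T H)
    (I : Finset (Fin s))

theorem ext_leaf {i : Fin s} : Fin.castSucc i ∈ (ext C t R T hT I).leaf ↔ i ∈ C.leaf := by
  show _ ∈ C.leaf.map Fin.castSuccEmb ∪ (if t = 0 then {Fin.last s} else ∅) ↔ _
  rw [Finset.mem_union, Finset.mem_map]
  constructor
  · rintro (⟨j, hj, h⟩ | h)
    · rwa [← Fin.castSucc_injective _ h]
    · by_cases ht : t = 0
      · rw [if_pos ht, Finset.mem_singleton] at h
        exact absurd h (Fin.castSucc_lt_last i).ne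
      · rw [if_neg ht] at h
        exact absurd h (Finset.notMem_empty _)
  · intro h
    exact Or.inl ⟨i, h, rfl⟩

theorem ext_conj {i : Fin s} : Fin.castSucc i ∈ (ext C t R T hT I).conj ↔ i ∈ C.conj := by
  show _ ∈ C.conj.map Fin.castSuccEmb ∪ (if t = 1 then {Fin.last s} else ∅) ↔ _
  rw [Finset.mem_union, Finset.mem_map]
  constructor
  · rintro (⟨j, hj, h⟩ | h)
    · rwa [← Fin.castSucc_injective _ h]
    · by_cases ht : t = 1
      · rw [if_pos ht, Finset.mem_singleton] at h
        exact absurd h (Fin.castSucc_lt_last i).ne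
      · rw [if_neg ht] at h
        exact absurd h (Finset.notMem_empty _)
  · intro h
    exact Or.inl ⟨i, h, rfl⟩

theorem ext_leaf_last : Fin.last s ∈ (ext C t R T hT I).leaf ↔ t = 0 := by
  show _ ∈ C.leaf.map Fin.castSuccEmb ∪ (if t = 0 then {Fin.last s} else ∅) ↔ _
  rw [Finset.mem_union, Finset.mem_map]
  constructor
  · rintro (⟨j, hj, h⟩ | h)
    · exact absurd h (Fin.castSucc_lt_last j).ne
    · by_contra ht
      rw [if_neg ht] at h
      exact absurd h (Finset.notMem_empty _)
  · intro h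
    rw [if_pos h]
    exact Or.inr (Finset.mem_singleton_self _)

theorem ext_conj_last : Fin.last s ∈ (ext C t R T hT I).conj ↔ t = 1 := by
  show _ ∈ C.conj.map Fin.castSuccEmb ∪ (if t = 1 then {Fin.last s} else ∅) ↔ _
  rw [Finset.mem_union, Finset.mem_map]
  constructor
  · rintro (⟨j, hj, h⟩ | h)
    · exact absurd h (Fin.castSucc_lt_last j).ne
    · by_contra ht
      rw [if_neg ht] at h
      exact absurd h (Finset.notMem_empty _)
  · intro h
    rw [if_pos h]
    exact Or.inr (Finset.mem_singleton_self _)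

theorem ext_ins {i : Fin s} : (ext C t R T hT I).ins (Fin.castSucc i) =
    (C.ins i).map Fin.castSuccEmb := by
  simp [ext]

theorem ext_ins_last : (ext C t R T hT I).ins (Fin.last s) = I.map Fin.castSuccEmb := by
  simp [ext]

theorem ext_test {i : Fin s} : (ext C t R T hT I).test (Fin.castSucc i) = C.test i :=
  Fin.snoc_castSucc (α := fun _ => Finset Y → Prop) _ _ i

theorem ext_test_last : (ext C t R T hT I).test (Fin.last s) = T :=
  Fin.snoc_last (α := fun _ => Finset Y → Prop) _ _

theorem ext_reads {i : Fin s} : (ext C t R T hT I).reads (Fin.castSucc i) = C.reads i :=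
  Fin.snoc_castSucc (α := fun _ => Finset Y) _ _ i

theorem ext_reads_last : (ext C t R T hT I).reads (Fin.last s) = R :=
  Fin.snoc_last (α := fun _ => Finset Y) _ _

theorem ext_proof {G : Finset Y} {N : Finset Y} {i : Fin s} :
    (ext C t R T hT I).Proof G N (Fin.castSucc i) ↔ C.Proof G N i := by
  constructor
  · intro h
    have key : ∀ j, (ext C t R T hT I).Proof G N j → ∀ i, j = Fin.castSucc i → C.Proof G N i := by
      intro j hj
      induction hj with
      | leaf h1 h2 h3 =>
        rintro i rfl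
        rw [ext_leaf] at h1
        rw [ext_test] at h2
        rw [ext_reads] at h3
        exact .leaf h1 h2 h3
      | conj h1 h2 _ ih =>
        rintro i rfl
        rw [ext_leaf] at h1
        rw [ext_conj] at h2
        refine .conj h1 h2 fun k hk => ih (Fin.castSucc k) ?_ k rfl
        rw [ext_ins]
        exact Finset.mem_map_of_mem Fin.castSuccEmb hk
      | disj h1 h2 h3 _ ih =>
        rintro i rfl
        rw [ext_leaf] at h1
        rw [ext_conj] at h2
        rw [ext_ins, Finset.mem_map] at h3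
        obtain ⟨k, hk, rfl⟩ := h3
        exact .disj h1 h2 hk (ih k rfl)
    exact key _ h i rfl
  · intro h
    induction h with
    | leaf h1 h2 h3 =>
      refine .leaf ((ext_leaf C t R T hT I).2 h1) ?_ ?_
      · rw [ext_test]
        exact h2
      · rw [ext_reads]
        exact h3
    | conj h1 h2 _ ih =>
      refine .conj (fun h => h1 ((ext_leaf C t R T hT I).1 h)) ((ext_conj C t R T hT I).2 h2) ?_
      intro j hj
      rw [ext_ins, Finset.mem_map] at hj
      obtain ⟨k, hk, rfl⟩ := hj
      exact ih k hk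
    | disj h1 h2 h3 _ ih =>
      refine .disj (fun h => h1 ((ext_leaf C t R T hT I).1 h))
        (fun h => h2 ((ext_conj C t R T hT I).1 h)) ?_ ih
      rw [ext_ins]
      exact Finset.mem_map_of_mem Fin.castSuccEmb h3

theorem ext_proof_leaf {G : Finset Y} {N : Finset Y} :
    (ext C 0 R T hT I).Proof G N (Fin.last s) ↔ T G ∧ ∀ e ∈ R, e ∈ G ∨ e ∈ N := by
  constructor
  · intro h
    cases h with
    | leaf h1 h2 h3 =>
      rw [ext_test_last] at h2
      rw [ext_reads_last] at h3
      exact ⟨h2, h3⟩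
    | conj h1 _ _ => exact absurd ((ext_leaf_last C 0 R T hT I).2 rfl) h1
    | disj h1 _ _ _ => exact absurd ((ext_leaf_last C 0 R T hT I).2 rfl) h1
  · rintro ⟨h2, h3⟩
    refine .leaf ((ext_leaf_last C 0 R T hT I).2 rfl) ?_ ?_
    · rw [ext_test_last]
      exact h2
    · rw [ext_reads_last]
      exact h3

theorem ext_proof_conj {G : Finset Y} {N : Finset Y} :
    (ext C 1 R T hT I).Proof G N (Fin.last s) ↔ ∀ i ∈ I, C.Proof G N i := by
  have h0 : Fin.last s ∉ (ext C 1 R T hT I).leaf := by
    rw [ext_leaf_last]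
    exact one_ne_zero
  have h1 : Fin.last s ∈ (ext C 1 R T hT I).conj := (ext_conj_last C 1 R T hT I).2 rfl
  constructor
  · intro h i hi
    cases h with
    | leaf h _ _ => exact absurd h h0
    | conj _ _ h3 =>
      rw [← ext_proof C 1 R T hT I]
      refine h3 _ ?_
      rw [ext_ins_last]
      exact Finset.mem_map_of_mem Fin.castSuccEmb hi
    | disj _ h _ _ => exact absurd h1 h
  · intro h
    refine .conj h0 h1 fun j hj => ?_
    rw [ext_ins_last, Finset.mem_map] at hj
    obtain ⟨k, hk, rfl⟩ := hj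
    exact (ext_proof C 1 R T hT I).2 (h k hk)

theorem ext_proof_disj {G : Finset Y} {N : Finset Y} :
    (ext C 2 R T hT I).Proof G N (Fin.last s) ↔ ∃ i ∈ I, C.Proof G N i := by
  have h0 : Fin.last s ∉ (ext C 2 R T hT I).leaf := by
    rw [ext_leaf_last]
    exact two_ne_zero
  have h1 : Fin.last s ∉ (ext C 2 R T hT I).conj := by
    rw [ext_conj_last]
    omega
  constructor
  · intro h
    cases h with
    | leaf h _ _ => exact absurd h h0
    | conj _ h _ => exact absurd h h1
    | disj _ _ h3 h4 =>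
      rw [ext_ins_last, Finset.mem_map] at h3
      obtain ⟨k, hk, rfl⟩ := h3
      exact ⟨k, hk, (ext_proof C 2 R T hT I).1 h4⟩
  · rintro ⟨i, hi, h⟩
    refine .disj h0 h1 (j := Fin.castSucc i) ?_ ((ext_proof C 2 R T hT I).2 h)
    rw [ext_ins_last]
    exact Finset.mem_map_of_mem Fin.castSuccEmb hi

end

open Classical in
/-- The literals that are true for `G` and read only elements of `G` and of `N`. -/
noncomputable def litN (G : Finset Y) (N : Finset Y) :
    Finset (Y ⊕ Y) :=
  univ.filter fun k => Sum.elim (fun e => e ∈ G) (fun e => e ∉ G ∧ e ∈ N) k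

theorem mem_litN_inl {G : Finset Y} {N : Finset Y} {e : Y} :
    Sum.inl e ∈ litN G N ↔ e ∈ G := by
  simp [litN]

theorem mem_litN_inr {G : Finset Y} {N : Finset Y} {e : Y} :
    Sum.inr e ∈ litN G N ↔ e ∉ G ∧ e ∈ N := by
  simp [litN]

/-- Programs over the literals are circuits with tests of single elements. -/
theorem ofProg {l : List (Finset (Y ⊕ Y) → Prop)} {r : ℕ}
    (h : NProg (Inp (Y ⊕ Y)) l r) : r = 0 → ∃ C : Circuit Y l.length,
      ∀ f ∈ l, ∃ i, ∀ G N, C.Proof G N i ↔ f (litN G N) := by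
  classical
  induction h with
  | nil =>
    intro _
    exact ⟨⟨∅, ∅, fun i => i.elim0, fun i => i.elim0, fun i => i.elim0, fun i => i.elim0,
      fun i => i.elim0⟩, fun f hf => absurd hf List.not_mem_nil⟩
  | @base l r g hg _ ih =>
    intro hr
    obtain ⟨C, hC⟩ := ih hr
    obtain ⟨k, rfl⟩ := hg
    obtain ⟨e, he⟩ : ∃ e : Y, k = Sum.inl e ∨ k = Sum.inr e := by
      rcases k with e | e
      · exact ⟨e, Or.inl rfl⟩
      · exact ⟨e, Or.inr rfl⟩
    let T : Finset Y → Prop := fun G =>
      if k = Sum.inl e then e ∈ G else e ∉ G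
    have hT : ∀ G H : Finset Y, (∀ e' ∈ ({e} : Finset Y),
        e' ∈ G ↔ e' ∈ H) → T G → T H := by
      intro G H h hG
      have h1 := h e (Finset.mem_singleton_self _)
      by_cases hk : k = Sum.inl e
      · simp only [T, if_pos hk] at hG ⊢
        exact h1.1 hG
      · simp only [T, if_neg hk] at hG ⊢
        exact fun h2 => hG (h1.2 h2)
    refine ⟨ext C 0 {e} T hT ∅, fun f hf => ?_⟩
    rcases List.mem_cons.1 hf with rfl | hf
    · refine ⟨Fin.last _, fun G N => ?_⟩
      refine (ext_proof_leaf C {e} T hT ∅).trans ?_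
      simp only [Finset.mem_singleton, forall_eq]
      rcases he with rfl | rfl
      · simp only [T, if_true]
        rw [mem_litN_inl]
        exact ⟨fun h => h.1, fun h => ⟨h, Or.inl h⟩⟩
      · have h1 : ¬ (Sum.inr e : Y ⊕ Y) = Sum.inl e := by simp
        simp only [T, if_neg h1]
        rw [mem_litN_inr]
        exact ⟨fun h => ⟨h.1, h.2.resolve_left h.1⟩, fun h => ⟨h.1, Or.inr h.2⟩⟩
    · obtain ⟨i, hi⟩ := hC f hf
      exact ⟨Fin.castSucc i, fun G N => (ext_proof C 0 {e} T hT ∅).trans (hi G N)⟩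
  | @and l r S hS _ ih =>
    intro hr
    obtain ⟨C, hC⟩ := ih hr
    let I : Finset (Fin l.length) := univ.filter fun i => ∃ f ∈ S,
      ∀ G N, C.Proof G N i ↔ f (litN G N)
    refine ⟨ext C 1 ∅ (fun _ => True) (fun _ _ _ _ => trivial) I, fun f hf => ?_⟩
    rcases List.mem_cons.1 hf with rfl | hf
    · refine ⟨Fin.last _, fun G N => ?_⟩
      refine (ext_proof_conj C ∅ (fun _ => True) (fun _ _ _ _ => trivial) I).trans ?_
      constructor
      · intro h f hf
        obtain ⟨i, hi⟩ := hC f (hS f hf)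
        exact (hi G N).1 (h i (Finset.mem_filter.2 ⟨Finset.mem_univ _, f, hf, hi⟩))
      · intro h i hi
        obtain ⟨_, f, hf, hfi⟩ := Finset.mem_filter.1 hi
        exact (hfi G N).2 (h f hf)
    · obtain ⟨i, hi⟩ := hC f hf
      exact ⟨Fin.castSucc i, fun G N =>
        (ext_proof C 1 ∅ (fun _ => True) (fun _ _ _ _ => trivial) I).trans (hi G N)⟩
  | @or l r S hS _ ih =>
    intro hr
    obtain ⟨C, hC⟩ := ih hr
    let I : Finset (Fin l.length) := univ.filter fun i => ∃ f ∈ S,
      ∀ G N, C.Proof G N i ↔ f (litN G N)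
    refine ⟨ext C 2 ∅ (fun _ => True) (fun _ _ _ _ => trivial) I, fun f hf => ?_⟩
    rcases List.mem_cons.1 hf with rfl | hf
    · refine ⟨Fin.last _, fun G N => ?_⟩
      refine (ext_proof_disj C ∅ (fun _ => True) (fun _ _ _ _ => trivial) I).trans ?_
      constructor
      · rintro ⟨i, hi, h⟩
        obtain ⟨_, f, hf, hfi⟩ := Finset.mem_filter.1 hi
        exact ⟨f, hf, (hfi G N).1 h⟩
      · rintro ⟨f, hf, h⟩
        obtain ⟨i, hi⟩ := hC f (hS f hf)
        exact ⟨i, Finset.mem_filter.2 ⟨Finset.mem_univ _, f, hf, hi⟩, (hi G N).2 h⟩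
    · obtain ⟨i, hi⟩ := hC f hf
      exact ⟨Fin.castSucc i, fun G N =>
        (ext_proof C 2 ∅ (fun _ => True) (fun _ _ _ _ => trivial) I).trans (hi G N)⟩
  | not _ _ _ => exact fun hr => absurd hr (Nat.succ_ne_zero _)

end Pool.Agent.H78.FR.S
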