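import Pool.Agent.H78.FR.Conv
import Pool.Agent.H78.FR.SOfl

/-!
General circuits for monotone properties of sets can be made robust against `r` hidden absent
elements.
-/

set_option linter.unusedSectionVars false

namespace Pool.Agent.H78.FR.S

open Finset
open Pool.Agent.H25.NP hiding Circuit
open Pool.Agent.H29.NW.SC (Circuit)
open Pool.Agent.H78.WS

variable {Y : Type} [Fintype Y] [DecidableEq Y] {s : ℕ}

/-- **Converse.** General circuits for monotone properties can be made robust against `r` hidden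
absent elements. -/
theorem robust (C : Circuit Y s) (h1 : ∀ i ∈ C.leaf, (C.reads i).card ≤ 1) (out : Fin s)
    {f : Finset Y → Prop} (hf : ∀ G H, G ⊆ H → f G → f H) (r : ℕ)
    (hC : ∀ G : Finset Y, C.Proof G Finset.univ out ↔ f G) :
    ∃ (s' : ℕ) (C' : Circuit Y s') (out' : Fin s'),
      s' ≤ 5 * (s + 1) * (2 * Fintype.card Y + 1) ^ (r + 1) ∧
      ∀ G : Finset Y, (C'.Proof G Finset.univ out' → f G) ∧
        (f G → ∀ z : Fin r → Y, C'.Proof G (univ \ univ.image z) out') := by
  classical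
  obtain ⟨l, g1, g2, g3⟩ := Pool.Agent.H78.WS.S.toProg C h1 s le_rfl
  obtain ⟨c, hc1, hc2⟩ := g3 out out.2
  have hcm : ∀ Z Z', Z ⊆ Z' → c Z → c Z' := fun Z Z' hZ =>
    g1.mono rfl (by
      rintro g ⟨k, rfl⟩ x y hxy hx
      exact hxy hx) c hc1 Z Z' hZ
  have hcomp : Comp (Inp (Y ⊕ Y)) {c} s 0 := by
    refine ⟨l, g1, ?_, g2⟩
    rintro f' hf'
    rw [Set.mem_singleton_iff] at hf'
    rw [hf']
    exact hc1
  obtain ⟨l', m1, m2, m3⟩ := comp_rob hcomp r
  obtain ⟨C', hC'⟩ := ofProg m1 rfl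
  obtain ⟨out', hout⟩ := hC' _ (m2 _ rfl)
  refine ⟨_, C', out', ?_, fun G => ⟨fun h => ?_, fun h z => ?_⟩⟩
  · refine m3.trans ?_
    rw [Fintype.card_sum]
    set N := Fintype.card Y with hN
    set P := (2 * N + 1) ^ r with hP
    have e3 : 1 ≤ P := Nat.one_le_pow _ _ (Nat.succ_pos _)
    have e5 : (2 * N + 1) * 1 ≤ (2 * N + 1) * P := Nat.mul_le_mul_left _ e3
    have e6 : 1 * P ≤ (2 * N + 1) * P := Nat.mul_le_mul_right _ (by omega)
    have e7 : (2 * N + 1) ^ (r + 1) = (2 * N + 1) * P := by rw [pow_succ, mul_comm]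
    rw [e7]
    set Q := (2 * N + 1) * P with hQ
    have e8 : P * (s + 2) ≤ Q * (s + 2) := Nat.mul_le_mul_right _ (by omega)
    calc N + N + 2 + P * (s + 2) + 1
        ≤ 2 * N + 3 + Q * (s + 2) := by omega
      _ ≤ 3 * Q + Q * (s + 2) := by omega
      _ = (s + 5) * Q := by ring
      _ ≤ (5 * (s + 1)) * Q := Nat.mul_le_mul_right _ (by omega)
  · -- soundness
    rw [hout] at h
    obtain ⟨W, hW, h2, h3⟩ := h
    let X : Finset Y := univ.filter fun e =>
      (e, true) ∈ W ∨ ((∀ b, (e, b) ∉ W) ∧ e ∈ G)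
    have hX : ∀ e, e ∈ X ↔ ((e, true) ∈ W ∨ ((∀ b, (e, b) ∉ W) ∧ e ∈ G)) := by
      intro e
      simp [X]
    have e1 : asg W (litN G univ) ⊆ lits X := by
      intro k hk
      rcases k with e | e
      · rw [mem_asg_inl, mem_litN_inl] at hk
        rw [mem_lits_inl, hX]
        exact hk
      · rw [mem_asg_inr, mem_litN_inr] at hk
        rw [mem_lits_inr, hX]
        rintro (h4 | ⟨h4, h5⟩)
        · rcases hk with ⟨h6, _⟩ | ⟨h6, _⟩
          · exact h6 h4
          · exact h6 true h4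
        · rcases hk with ⟨_, h6⟩ | ⟨_, h6⟩
          · exact h4 false h6
          · exact h6.1 h5
    have e2 : Pool.Agent.H78.WS.S.val C X out := (hc2 X).1 (hcm _ _ e1 h3)
    refine hf _ _ ?_ ((hC _).1 e2)
    intro e he
    rcases (hX _).1 he with h5 | h5
    · exact mem_litN_inl.1 (h2 _ h5)
    · exact h5.2
  · -- completeness
    rw [hout]
    let b : Y → Bool := fun e => decide (e ∈ G)
    let U : Finset Y := univ.image z
    let W : Finset (Y × Bool) := U.image fun e => (e, b e)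
    have hWm : ∀ e v, (e, v) ∈ W ↔ (e ∈ univ.image z ∧ v = b e) := by
      intro e v
      show (e, v) ∈ U.image (fun e => (e, b e)) ↔ _
      rw [Finset.mem_image]
      constructor
      · rintro ⟨e', he', h5⟩
        obtain ⟨h6, h7⟩ := Prod.mk.inj h5
        subst h6
        exact ⟨he', h7.symm⟩
      · rintro ⟨h5, h6⟩
        exact ⟨e, h5, by rw [h6]⟩
    have hWt : ∀ e, (e, true) ∈ W ↔ (e ∈ univ.image z ∧ e ∈ G) := by
      intro e
      rw [hWm]
      refine and_congr_right fun _ => ?_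
      show true = decide (e ∈ G) ↔ _
      rw [eq_comm, decide_eq_true_iff]
    have hWf : ∀ e, (e, false) ∈ W ↔ (e ∈ univ.image z ∧ e ∉ G) := by
      intro e
      rw [hWm]
      refine and_congr_right fun _ => ?_
      show false = decide (e ∈ G) ↔ _
      rw [eq_comm, decide_eq_false_iff_not]
    have hWn : ∀ e : Y, e ∉ univ.image z → ∀ v, (e, v) ∉ W := by
      intro e he v h5
      exact he ((hWm e v).1 h5).1
    refine ⟨W, ?_, ?_, ?_⟩
    · refine Finset.card_image_le.trans (Finset.card_image_le.trans ?_)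
      rw [Finset.card_univ, Fintype.card_fin]
    · intro e he
      rw [mem_litN_inl]
      exact ((hWt e).1 he).2
    · have h5 : c (lits G) := by
        rw [hc2]
        exact (hC G).2 h
      refine hcm _ _ ?_ h5
      intro k hk
      rcases k with e | e
      · rw [mem_lits_inl] at hk
        rw [mem_asg_inl, mem_litN_inl]
        by_cases h6 : e ∈ univ.image z
        · exact Or.inl ((hWt e).2 ⟨h6, hk⟩)
        · exact Or.inr ⟨hWn e h6, hk⟩
      · rw [mem_lits_inr] at hk
        rw [mem_asg_inr, mem_litN_inr]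
        by_cases h6 : e ∈ univ.image z
        · exact Or.inl ⟨fun h7 => hk ((hWt e).1 h7).2, (hWf e).2 ⟨h6, hk⟩⟩
        · exact Or.inr ⟨hWn e h6, hk, Finset.mem_sdiff.2 ⟨Finset.mem_univ _, h6⟩⟩

end Pool.Agent.H78.FR.S
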