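import Pool.Agent.H78.FR.SPl
import Pool.Agent.H29.NW.SMain

/-!
The choice of the parameters for satisfiability, with hidden random clauses.
-/

open Finset Filter Topology

namespace Pool.Agent.H78.FR.S

open H13
open Pool.Agent.H25.NM
open Pool.Agent.H29.NW.SC

/-- powers against exponentials -/
theorem grow_exp (κ : ℝ) : ∀ᶠ l : ℕ in atTop, (l : ℝ) ^ κ + 1 ≤ 2 ^ l := by
  have h1 : Tendsto (fun n : ℕ => (n : ℝ) ^ (⌈κ⌉₊) / 2 ^ n) atTop (𝓝 0) :=
    tendsto_pow_const_div_const_pow_of_one_lt _ (by norm_num)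
  have h2 := h1.eventually (gt_mem_nhds (show (0 : ℝ) < 1 / 2 by norm_num))
  filter_upwards [h2, eventually_ge_atTop 1] with l hl hl1
  have e1 : (1 : ℝ) ≤ l := by exact_mod_cast hl1
  have e2 : (0 : ℝ) < 2 ^ l := by positivity
  rw [div_lt_iff₀ e2] at hl
  have e3 : (l : ℝ) ^ κ ≤ (l : ℝ) ^ (⌈κ⌉₊) := by
    rw [← Real.rpow_natCast]
    exact Real.rpow_le_rpow_of_exponent_le e1 (Nat.le_ceil κ)
  have e4 : (2 : ℝ) ≤ 2 ^ l := by
    calc (2 : ℝ) = 2 ^ 1 := (pow_one _).symm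
      _ ≤ 2 ^ l := pow_le_pow_right₀ (by norm_num) hl1
  linarith

/-- the number of clauses against the number of places of a slot -/
theorem card_le {n m k d q p : ℕ} (hdk : d ≤ k) (hm1 : 1 ≤ m) (hk : 1 ≤ k) (hn : 1 ≤ n)
    (h2 : (n : ℝ) / (10 * m) ≤ q) (hp5 : (n : ℝ) / (5 * k) ≤ p) :
    Fintype.card (Clause n k) ≤
      (30 * k) ^ k * m ^ d * Fintype.card ((Fin d → Fin q) × (Fin (k - d) → Fin p)) := by
  have hk1 : (1 : ℝ) ≤ k := by exact_mod_cast hk
  have hk0 : (0 : ℝ) < k := by linarith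
  have hmr1 : (1 : ℝ) ≤ m := by exact_mod_cast hm1
  have hmr0 : (0 : ℝ) < m := by linarith
  have hn1 : (1 : ℝ) ≤ n := by exact_mod_cast hn
  have hn0 : (0 : ℝ) < n := by linarith
  rw [Fintype.card_prod, Fintype.card_fun, Fintype.card_fun, Fintype.card_fin,
    Fintype.card_fin, Fintype.card_fin, Fintype.card_fin]
  refine (card_clause_le n k).trans ?_
  have h3 : ((n : ℝ) / (10 * m)) ^ d * ((n : ℝ) / (5 * k)) ^ (k - d) ≤
      (q : ℝ) ^ d * (p : ℝ) ^ (k - d) :=
    mul_le_mul (pow_le_pow_left₀ (by positivity) h2 d)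
      (pow_le_pow_left₀ (by positivity) hp5 _) (by positivity) (by positivity)
  have h4 : (n : ℝ) / (10 * k) ≤ n / (5 * k) := by
    apply div_le_div_of_nonneg_left hn0.le (by positivity)
    linarith
  have h5 : ((n : ℝ) / (10 * m)) ^ d * ((n : ℝ) / (10 * k)) ^ (k - d) ≤
      ((n : ℝ) / (10 * m)) ^ d * ((n : ℝ) / (5 * k)) ^ (k - d) :=
    mul_le_mul_of_nonneg_left (pow_le_pow_left₀ (by positivity) h4 _) (by positivity)
  have h8 : ((n : ℝ) / (10 * m)) ^ d * ((n : ℝ) / (10 * k)) ^ (k - d) =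
      (n : ℝ) ^ k / ((10 : ℝ) ^ k * ((m : ℝ) ^ d * (k : ℝ) ^ (k - d))) := by
    rw [div_pow, div_pow, mul_pow, mul_pow, div_mul_div_comm]
    obtain ⟨b, hb⟩ := Nat.exists_eq_add_of_le hdk
    have h9 : k - d = b := by omega
    rw [h9, ← pow_add, ← hb]
    congr 1
    rw [hb, pow_add]
    push_cast
    ring
  have h10 : (k : ℝ) ^ (k - d) ≤ (k : ℝ) ^ k :=
    pow_le_pow_right₀ hk1 (Nat.sub_le _ _)
  set A : ℝ := (10 : ℝ) ^ k with hA
  set B : ℝ := (m : ℝ) ^ d with hB
  set K : ℝ := (k : ℝ) ^ k with hK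
  set N : ℝ := (n : ℝ) ^ k with hN
  have hA0 : 0 < A := by positivity
  have hB0 : 0 < B := by positivity
  have hK0 : 0 < K := by positivity
  have hN0 : 0 < N := by positivity
  have h11 : N / (A * (B * K)) ≤ (q : ℝ) ^ d * (p : ℝ) ^ (k - d) := by
    refine le_trans ?_ (h5.trans h3)
    rw [h8]
    apply div_le_div_of_nonneg_left hN0.le (by positivity)
    exact mul_le_mul_of_nonneg_left (mul_le_mul_of_nonneg_left h10 hB0.le) hA0.le
  have h12 : ((2 * n + 1 : ℕ) : ℝ) ^ k ≤ (3 * (n : ℝ)) ^ k := by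
    apply pow_le_pow_left₀ (by positivity)
    push_cast
    linarith
  have e1 : (30 * (k : ℝ)) ^ k = 3 ^ k * (A * K) := by
    rw [hA, hK, ← mul_pow, ← mul_pow]
    congr 1
    ring
  have h13 : (3 * (n : ℝ)) ^ k = ((30 * k : ℝ) ^ k * B) * (N / (A * (B * K))) := by
    rw [e1, mul_pow, ← hN, mul_div_assoc', eq_div_iff (by positivity)]
    ring
  have h14 : (((2 * n + 1) ^ k : ℕ) : ℝ) ≤
      (((30 * k) ^ k * m ^ d * (q ^ d * p ^ (k - d)) : ℕ) : ℝ) := by
    have h15 := mul_le_mul_of_nonneg_left h11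
      (show (0 : ℝ) ≤ (30 * k : ℝ) ^ k * B by positivity)
    rw [← h13] at h15
    refine le_trans ?_ (le_trans (h12.trans h15) (le_of_eq ?_))
    · push_cast
      exact le_rfl
    · push_cast
      rfl
  exact_mod_cast h14

/-- Main theorem, the form of a contradiction. -/
theorem main (k d : ℕ) (hd : 3 ≤ d) (hdk : d ≤ k) (κ : ℝ)
    (hκ : (d : ℝ) ^ 2 / ((d : ℝ) - 1) < κ) :
    ∃ l₀ : ℕ, ∀ l ≥ l₀, ∀ n a r s : ℕ, (l : ℝ) ^ κ ≤ (n : ℝ) ^ d → n ^ 2 ≤ a →
      (a : ℝ) ≤ ((n : ℝ) / (5 * k)) ^ k → (l : ℝ) ^ (κ + 1) ≤ r → s ≤ 2 ^ l →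
      ∀ (C : Circuit (Clause n k) s) (out : Fin s),
      (∀ F : Finset (Clause n k), a ≤ #F → (#F : ℝ) ≤ a + (l : ℝ) ^ κ → Satisfiable F →
        ¬ C.Proof F Finset.univ out) →
      (∀ F : Finset (Clause n k), a ≤ #F → (#F : ℝ) ≤ a + (l : ℝ) ^ κ → ¬ Satisfiable F →
        Fintype.card (Fin r → Clause n k) ≤ 2 ^ l * nc fun z : Fin r → Clause n k =>
          C.Proof F (univ \ univ.image z) out) → False := by
  classical
  have hk3 : 3 ≤ k := hd.trans hdk
  have hd3 : (3 : ℝ) ≤ d := by exact_mod_cast hd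
  have hd0 : (0 : ℝ) < d := by linarith
  have hd1 : (0 : ℝ) < (d : ℝ) - 1 := by linarith
  have hk0 : (0 : ℝ) < k := by
    have : 0 < k := by omega
    exact_mod_cast this
  have hk1 : (1 : ℝ) ≤ k := by
    have : 1 ≤ k := by omega
    exact_mod_cast this
  have hκ0 : 0 < κ := lt_of_le_of_lt (by positivity) hκ
  -- the exponent of the small formula
  have hgap : (d : ℝ) / κ < 1 - 1 / (d : ℝ) := by
    rw [div_lt_iff₀ hd1] at hκ
    rw [div_lt_iff₀ hκ0]
    have h1 : (1 - 1 / (d : ℝ)) * κ = κ * ((d : ℝ) - 1) / d := by field_simp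
    rw [h1, lt_div_iff₀ hd0]
    calc (d : ℝ) * d = (d : ℝ) ^ 2 := by ring
      _ < κ * ((d : ℝ) - 1) := hκ
  obtain ⟨E₁, hE₁, hE₁'⟩ := exists_between hgap
  have hE₁0 : 0 < E₁ := lt_of_le_of_lt (by positivity) hE₁
  have hEE₁ : 1 < κ / d * E₁ := by
    rw [div_lt_iff₀ hκ0] at hE₁
    rw [div_mul_eq_mul_div, lt_div_iff₀ hd0]
    linarith
  obtain ⟨m₀, hm₀⟩ := Pool.Agent.H25.NA.main d d hd le_rfl d E₁ hd0 le_rfl (by
    rw [div_self hd0.ne', one_mul]; exact hE₁')
  -- the constant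
  set c : ℝ := 1 / (30 * k) ^ k with hc
  have hc0 : 0 < c := by positivity
  have hc1 : c ≤ 1 / 10 := by
    rw [hc]
    apply one_div_le_one_div_of_le (by norm_num)
    calc (10 : ℝ) ≤ 30 * k := by linarith
      _ = (30 * k) ^ 1 := (pow_one _).symm
      _ ≤ (30 * k) ^ k := pow_le_pow_right₀ (by linarith) (by omega)
  have hβ : 0 < κ / d := by positivity
  have hcast : Tendsto (fun n : ℕ => (n : ℝ)) atTop atTop := tendsto_natCast_atTop_atTop
  have t1 : Tendsto (fun n : ℕ => (n : ℝ) ^ (κ / d)) atTop atTop :=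
    (tendsto_rpow_atTop hβ).comp hcast
  have t2 : Tendsto (fun n : ℕ => (n : ℝ) ^ (-(κ / d * E₁ - 1))) atTop (𝓝 0) :=
    (tendsto_rpow_neg_atTop (by linarith)).comp hcast
  have hCpos : 0 < (c / 2) ^ E₁ := by positivity
  have e1 := t1.eventually (eventually_ge_atTop ((2 * (max m₀ d + 1) : ℝ) / c))
  have e2 := t1.eventually (eventually_ge_atTop ((20 * k + 20 : ℕ) : ℝ))
  have e3 := t2.eventually (gt_mem_nhds (show (0 : ℝ) < (c / 2) ^ E₁ / 5 by positivity))
  have e4 := grow_exp κ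
  obtain ⟨l₀, hl₀⟩ := eventually_atTop.1 (e1.and (e2.and (e3.and e4)))
  refine ⟨max l₀ 1, fun l hl n a r s hln han hak hr hs C out hrej hacc => ?_⟩
  obtain ⟨hA, hB, hG, hX⟩ := hl₀ l (le_trans (le_max_left _ _) hl)
  have hl1 : 1 ≤ l := le_trans (le_max_right _ _) hl
  have hl1r : (1 : ℝ) ≤ l := by exact_mod_cast hl1
  have hl0 : (0 : ℝ) < l := by linarith
  set x : ℝ := (l : ℝ) ^ (κ / d) with hx
  have hx0 : 0 < x := Real.rpow_pos_of_pos hl0 _
  have hxd : x ^ d = (l : ℝ) ^ κ := by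
    rw [hx, ← Real.rpow_natCast, ← Real.rpow_mul hl0.le]
    congr 1
    field_simp
  have hxn : x ≤ n := by
    rw [← hxd] at hln
    exact le_of_pow_le_pow_left₀ (by omega) (by positivity) hln
  have hn20r : ((20 * k + 20 : ℕ) : ℝ) ≤ n := le_trans hB hxn
  have hn20 : 20 * k + 20 ≤ n := by exact_mod_cast hn20r
  have hnpos : 0 < n := by omega
  have hn1 : (1 : ℝ) ≤ n := by exact_mod_cast hnpos
  have hn0 : (0 : ℝ) < n := by linarith
  set m : ℕ := ⌊c * x⌋₊ with hm
  have hmle : (m : ℝ) ≤ c * x := Nat.floor_le (by positivity)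
  have hmlt : c * x < m + 1 := Nat.lt_floor_add_one _
  have hcx : 2 * ((max m₀ d : ℕ) + 1 : ℝ) ≤ c * x := by
    rw [div_le_iff₀ hc0] at hA
    push_cast at hA ⊢
    linarith
  have hmax : max m₀ d + 1 ≤ m := by
    have h1 : ((max m₀ d : ℕ) + 1 : ℝ) < m + 1 := by
      have h2 : (0 : ℝ) ≤ ((max m₀ d : ℕ) : ℝ) := by positivity
      linarith
    have h2 : ((max m₀ d + 1 : ℕ) : ℝ) < ((m + 1 : ℕ) : ℝ) := by push_cast; push_cast at h1; linarith
    have h3 : max m₀ d + 1 < m + 1 := by exact_mod_cast h2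
    omega
  have hm0m : m₀ ≤ m := by
    have := le_max_left m₀ d
    omega
  have hdm : d ≤ m := by
    have := le_max_right m₀ d
    omega
  have hm1 : 1 ≤ m := by omega
  have hmr1 : (1 : ℝ) ≤ m := by exact_mod_cast hm1
  have hmhalf : c / 2 * x ≤ m := by linarith
  have hmn : 20 * (m : ℝ) ≤ 2 * n := by
    have : c * x ≤ 1 / 10 * n := mul_le_mul hc1 hxn hx0.le (by norm_num)
    linarith
  -- the block sizes
  set q := n / (4 * m) with hq
  set p := n / (4 * k) with hp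
  have hq5 : (n : ℝ) / (5 * m) ≤ 2 * q := by
    have h1 : (n : ℝ) / (4 * m) < q + 1 := by
      have := Nat.lt_floor_add_one ((n : ℝ) / (4 * m))
      have h2 : ⌊(n : ℝ) / (4 * m)⌋₊ = q := by
        rw [hq]
        have := Nat.floor_div_eq_div (K := ℝ) n (4 * m)
        push_cast at this
        exact this
      rwa [h2] at this
    have h2 : (2 : ℝ) ≤ n / (4 * m) := by
      rw [le_div_iff₀ (by positivity)]
      linarith
    have h3 : (n : ℝ) / (5 * m) ≤ n / (4 * m) := by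
      apply div_le_div_of_nonneg_left hn0.le (by positivity)
      linarith
    linarith
  have hp5 : (n : ℝ) / (5 * k) ≤ p := by
    have h1 : (n : ℝ) / (4 * k) < p + 1 := by
      have := Nat.lt_floor_add_one ((n : ℝ) / (4 * k))
      have h2 : ⌊(n : ℝ) / (4 * k)⌋₊ = p := by
        rw [hp]
        have := Nat.floor_div_eq_div (K := ℝ) n (4 * k)
        push_cast at this
        exact this
      rwa [h2] at this
    have h2 : (n : ℝ) / (4 * k) - n / (5 * k) = n / (20 * k) := by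
      field_simp; norm_num
    have h3 : (1 : ℝ) ≤ n / (20 * k) := by
      rw [one_le_div (by positivity)]
      have : ((20 * k : ℕ) : ℝ) ≤ n := by exact_mod_cast (by omega : 20 * k ≤ n)
      push_cast at this
      linarith
    linarith
  have hqpos : 0 < q := by
    by_contra h
    have h0 : q = 0 := Nat.eq_zero_of_not_pos h
    rw [h0] at hq5
    have : 0 < (n : ℝ) / (5 * m) := by positivity
    simp at hq5
    linarith
  have hppos : 0 < p := by
    by_contra h
    have h0 : p = 0 := Nat.eq_zero_of_not_pos h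
    rw [h0] at hp5
    have : 0 < (n : ℝ) / (5 * k) := by positivity
    simp at hp5
    linarith
  have h4mq : 4 * (m * q) ≤ n := by
    have := Nat.mul_div_le n (4 * m)
    rw [← hq] at this
    calc 4 * (m * q) = 4 * m * q := by ring
      _ ≤ n := this
  have h4kp : 4 * (k * p) ≤ n := by
    have := Nat.mul_div_le n (4 * k)
    rw [← hp] at this
    calc 4 * (k * p) = 4 * k * p := by ring
      _ ≤ n := this
  have hdq : d * q ≤ m * q := Nat.mul_le_mul_right _ hdm
  have hkdp : (k - d) * p ≤ k * p := Nat.mul_le_mul_right _ (Nat.sub_le _ _)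
  have hcard : Fintype.card (Vr m d k q p p) ≤ Fintype.card (Fin n) := by
    simp only [Fintype.card_sum, Fintype.card_prod, Fintype.card_fin]
    omega
  have hNe : Nonempty (Vr m d k q p p) := ⟨Sum.inl (⟨0, hm1⟩, ⟨0, hqpos⟩)⟩
  obtain ⟨emb⟩ := Function.Embedding.nonempty_of_card_le hcard
  obtain ⟨Fx, hFx, hFa⟩ := exists_frame emb hk3 hppos a (by
    refine le_trans ?_ han
    have h1 : m * q * q ≤ m * q * n := Nat.mul_le_mul_left _ (by
      rw [hq]; exact Nat.div_le_self _ _)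
    have h2 : 4 * (m * q * n) ≤ n * n := by
      calc 4 * (m * q * n) = 4 * (m * q) * n := by ring
        _ ≤ n * n := Nat.mul_le_mul_right _ h4mq
    have h3 : n * 20 ≤ n * n := Nat.mul_le_mul_left _ (by omega)
    have h4 : n ^ 2 = n * n := sq n
    omega) (by
    have h1 : (a : ℝ) ≤ (p : ℝ) ^ k :=
      hak.trans (pow_le_pow_left₀ (by positivity) hp5 k)
    exact_mod_cast h1)
  -- the number of slots
  set M : ℝ := (l : ℝ) ^ κ with hM
  have hM1 : 1 ≤ M := Real.one_le_rpow hl1r hκ0.le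
  have hslots : (Fintype.card (Clause m d) : ℝ) ≤ M := by
    have h1 : (Fintype.card (Clause m d) : ℝ) ≤ ((2 * m + 1 : ℕ) : ℝ) ^ d := by
      exact_mod_cast card_clause_le m d
    have h2 : ((2 * m + 1 : ℕ) : ℝ) ≤ x := by
      push_cast
      nlinarith
    calc (Fintype.card (Clause m d) : ℝ) ≤ ((2 * m + 1 : ℕ) : ℝ) ^ d := h1
      _ ≤ x ^ d := pow_le_pow_left₀ (by positivity) h2 d
      _ = M := hxd
  have hwin : ∀ (h : Clause m d → (Fin d → Fin q) × (Fin (k - d) → Fin p))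
      (z : Finset (Clause m d)), a ≤ #(Fz Fx (cp emb hdk) h z) ∧
      (#(Fz Fx (cp emb hdk) h z) : ℝ) ≤ a + M := by
    intro h z
    constructor
    · rw [← hFa]
      exact Finset.card_le_card Finset.subset_union_left
    · have h1 : #(Fz Fx (cp emb hdk) h z) ≤ a + Fintype.card (Clause m d) := by
        refine (Finset.card_union_le _ _).trans ?_
        rw [hFa]
        have h2 : #(z.image (fun i => cp emb hdk i (h i))) ≤ #z := Finset.card_image_le
        have h3 : #z ≤ Fintype.card (Clause m d) := Finset.card_le_univ z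
        omega
      have h2 : (#(Fz Fx (cp emb hdk) h z) : ℝ) ≤ a + Fintype.card (Clause m d) := by
        exact_mod_cast h1
      linarith
  -- the number of places of a slot
  have : NeZero q := ⟨hqpos.ne'⟩
  have : NeZero p := ⟨hppos.ne'⟩
  set Q : ℕ := (30 * k) ^ k * m ^ d with hQ
  have hQ1 : 1 ≤ Q := Nat.mul_pos (Nat.pow_pos (by omega)) (Nat.pow_pos hm1)
  have hYV : Fintype.card (Clause n k) ≤
      Q * Fintype.card ((Fin d → Fin q) × (Fin (k - d) → Fin p)) := by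
    refine card_le hdk hm1 (by omega) hnpos ?_ hp5
    have : (n : ℝ) / (10 * m) = n / (5 * m) / 2 := by field_simp; norm_num
    rw [this]; linarith
  -- the number of hidden clauses
  have hQr : Q * (4 * l) ≤ r := by
    have h6 : (m : ℝ) ^ d ≤ c ^ d * M := by
      calc (m : ℝ) ^ d ≤ (c * x) ^ d := pow_le_pow_left₀ (by positivity) hmle d
        _ = c ^ d * x ^ d := mul_pow _ _ _
        _ = c ^ d * M := by rw [hxd]
    have h7 : c ^ d ≤ c / 100 := by
      have h8 : c ^ d ≤ c ^ 3 := pow_le_pow_of_le_one hc0.le (by linarith) hd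
      have h9 : c ^ 3 = c * (c * c) := by ring
      have h10 : c * c ≤ 1 / 100 := by nlinarith
      rw [h9] at h8
      nlinarith
    have h8 : ((Q * (4 * l) : ℕ) : ℝ) ≤ r := by
      rw [hQ]
      push_cast
      refine le_trans ?_ hr
      have h9 : (l : ℝ) ^ (κ + 1) = M * l := by
        rw [Real.rpow_add hl0, Real.rpow_one]
      rw [h9]
      have h10 : (m : ℝ) ^ d ≤ c / 100 * M := h6.trans (mul_le_mul_of_nonneg_right h7 (by positivity))
      have h11 : (30 * (k : ℝ)) ^ k * c = 1 := by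
        rw [hc]
        field_simp
      calc (30 * (k : ℝ)) ^ k * (m : ℝ) ^ d * (4 * l)
          ≤ (30 * (k : ℝ)) ^ k * (c / 100 * M) * (4 * l) := by
            apply mul_le_mul_of_nonneg_right _ (by positivity)
            exact mul_le_mul_of_nonneg_left h10 (by positivity)
        _ = ((30 * (k : ℝ)) ^ k * c) * (4 / 100 * (M * l)) := by ring
        _ = 4 / 100 * (M * l) := by rw [h11, one_mul]
        _ ≤ M * l := by
            have : 0 < M * l := by positivity
            linarith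
    exact_mod_cast h8
  -- the sizes
  have hI : Fintype.card (Clause m d) + 1 ≤ 2 ^ l := by
    have h1 : ((Fintype.card (Clause m d) + 1 : ℕ) : ℝ) ≤ ((2 ^ l : ℕ) : ℝ) := by
      push_cast
      linarith
    exact_mod_cast h1
  have hmiss : 2 * 2 ^ l * (Fintype.card (Clause m d) * (Fintype.card (Clause n k) -
      Fintype.card ((Fin d → Fin q) × (Fin (k - d) → Fin p))) ^ r) ≤
      Fintype.card (Clause n k) ^ r := by
    have hle : Fintype.card ((Fin d → Fin q) × (Fin (k - d) → Fin p)) ≤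
        Fintype.card (Clause n k) := by
      refine Fintype.card_le_of_injective (fun v => cp emb hdk ⟨∅, by simp⟩ v) ?_
      intro v v' h
      have := cp_injective (emb := emb) hdk (a₁ := ((⟨∅, by simp⟩ : Clause m d), v))
        (a₂ := ((⟨∅, by simp⟩ : Clause m d), v')) h
      exact (Prod.mk.inj this).2
    have h1 := Pool.Agent.H78.FR.two_pow_mul_sub_pow hQ1 hle hYV hQr
    refine le_trans ?_ h1
    rw [← mul_assoc]
    apply Nat.mul_le_mul_right
    calc 2 * 2 ^ l * Fintype.card (Clause m d) ≤ 2 * 2 ^ l * 2 ^ l :=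
          Nat.mul_le_mul_left _ (by omega)
      _ = 2 ^ (2 * l + 1) := by ring
      _ ≤ 2 ^ (4 * l) := Nat.pow_le_pow_right (by norm_num) (by omega)
  have hYpos : 0 < Fintype.card (Fin r → Clause n k) := by
    have : Nonempty (Fin r → Clause n k) := ⟨fun _ => ⟨∅, by simp⟩⟩
    exact Fintype.card_pos
  obtain ⟨C', out', hC'⟩ := reduce (D := 2 ^ l) Nat.one_le_two_pow C out (cp emb hdk)
    (cp_injective hdk) Fx (fun D b => hFx.notMem hdk D b) (fun z => ¬ Satisfiable z)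
    (fun h z hz => by
      rw [not_not] at hz
      exact hrej _ (hwin h z).1 (hwin h z).2 ((hFx.satisfiable_iff hdk hqpos h z).2 hz))
    (fun h z hz => hacc _ (hwin h z).1 (hwin h z).2
      (fun hs => hz ((hFx.satisfiable_iff hdk hqpos h z).1 hs))) hYpos hmiss
  have hbase := hm₀ m hm0m _ 0 0 (by simp) C' out' (Or.inr hC')
  -- conclusion
  have h1 : Fintype.card (Clause m d) + (2 * 2 ^ l * (Fintype.card (Clause m d) + 1) * s + 1) ≤
      2 ^ (3 * l + 2) := by
    have h2 : 2 * 2 ^ l * (Fintype.card (Clause m d) + 1) * s ≤ 2 * 2 ^ l * 2 ^ l * 2 ^ l :=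
      Nat.mul_le_mul (Nat.mul_le_mul_left _ hI) hs
    have h3 : 2 * 2 ^ l * 2 ^ l * 2 ^ l = 2 * 2 ^ (3 * l) := by ring
    have h4 : 2 ^ l ≤ 2 ^ (3 * l) := Nat.pow_le_pow_right (by norm_num) (by omega)
    have h5 : 2 ^ (3 * l + 2) = 4 * 2 ^ (3 * l) := by ring
    omega
  have h2 : (2 : ℝ) ^ ((m : ℝ) ^ E₁) < (2 : ℝ) ^ (((3 * l + 2 : ℕ)) : ℝ) := by
    refine lt_of_lt_of_le hbase ?_
    rw [Real.rpow_natCast]
    exact_mod_cast h1
  have h3 : (m : ℝ) ^ E₁ < ((3 * l + 2 : ℕ) : ℝ) :=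
    (Real.rpow_lt_rpow_left_iff (by norm_num)).1 h2
  have h4 : (c / 2) ^ E₁ * (l : ℝ) ^ (κ / d * E₁) ≤ (m : ℝ) ^ E₁ := by
    calc (c / 2) ^ E₁ * (l : ℝ) ^ (κ / d * E₁) = (c / 2 * x) ^ E₁ := by
          rw [Real.mul_rpow (by positivity) hx0.le, hx, ← Real.rpow_mul hl0.le]
      _ ≤ (m : ℝ) ^ E₁ := Real.rpow_le_rpow (by positivity) hmhalf hE₁0.le
  have h5 : (l : ℝ) = (l : ℝ) ^ (-(κ / d * E₁ - 1)) * (l : ℝ) ^ (κ / d * E₁) := by
    rw [← Real.rpow_add hl0]
    have : -(κ / d * E₁ - 1) + κ / d * E₁ = 1 := by ring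
    rw [this, Real.rpow_one]
  have h6 : 0 < (l : ℝ) ^ (κ / d * E₁) := Real.rpow_pos_of_pos hl0 _
  have h7 : (l : ℝ) < (c / 2) ^ E₁ / 5 * (l : ℝ) ^ (κ / d * E₁) := by
    nth_rewrite 1 [h5]
    exact mul_lt_mul_of_pos_right hG h6
  push_cast at h3
  linarith

end Pool.Agent.H78.FR.S
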