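import Pool.Agent.H78.FR.Hit
import Pool.Agent.H29.NW.SReduce

/-!
Circuits on sets with many proofs that avoid a random tuple of absent elements give monotone
circuits on the slots.
-/

namespace Pool.Agent.H78.FR.S

open Finset
open Pool.Agent.H25.NM
open Pool.Agent.H29.NW.SC

set_option linter.unusedSectionVars false

variable {I V Y : Type} [Fintype I] [DecidableEq I] [Fintype V] [DecidableEq V]
  [Fintype Y] [DecidableEq Y]

open Classical in
/-- The elements that are not hidden places. -/
noncomputable def Nh (pos : I → V → Y) (h : I → V) : Finset Y :=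
  univ.filter (fun e => ∀ i, e ≠ pos i (h i))

/-- `h` on `z`, `T` elsewhere. -/
def mix (z : Finset I) (h T : I → V) : I → V := fun i => if i ∈ z then h i else T i

theorem mix_mem {z : Finset I} {h T : I → V} {i : I} (hi : i ∈ z) : mix z h T i = h i := if_pos hi

theorem mix_not {z : Finset I} {h T : I → V} {i : I} (hi : i ∉ z) : mix z h T i = T i := if_neg hi

theorem mix_mix (z : Finset I) (h T : I → V) : mix z (mix z h T) (mix z T h) = h := by
  funext i
  by_cases hi : i ∈ z
  · rw [mix_mem hi, mix_mem hi]
  · rw [mix_not hi, mix_not hi]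

/-- The exchange of the places outside `z`. -/
def exch (z : Finset I) : Equiv.Perm ((I → V) × (I → V)) where
  toFun := fun q => (mix z q.1 q.2, mix z q.2 q.1)
  invFun := fun q => (mix z q.1 q.2, mix z q.2 q.1)
  left_inv := fun q => Prod.ext (mix_mix z q.1 q.2) (mix_mix z q.2 q.1)
  right_inv := fun q => Prod.ext (mix_mix z q.1 q.2) (mix_mix z q.2 q.1)

theorem Fz_mix (Fx : Finset Y) (pos : I → V → Y) (z : Finset I) (h T : I → V) :
    Fz Fx pos (mix z h T) z = Fz Fx pos h z := by
  unfold Fz
  congr 1
  apply Finset.image_congr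
  intro i hi
  simp only
  rw [mix_mem (Finset.mem_coe.1 hi)]

variable {s : ℕ}

/-- One set of slots. -/
theorem one [AddGroup V] (C : Circuit Y s) (out : Fin s) (pos : I → V → Y)
    (hpos : Function.Injective (fun p : I × V => pos p.1 p.2)) (Fx : Finset Y) (z : Finset I)
    {r D : ℕ}
    (hgood : ∀ h : I → V, Fintype.card (Fin r → Y) ≤
      D * nc fun x : Fin r → Y => C.Proof (Fz Fx pos h z) (univ \ univ.image x) out)
    (hY : 0 < Fintype.card (Fin r → Y))
    (hmiss : 2 * D * (Fintype.card I * (Fintype.card Y - Fintype.card V) ^ r) ≤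
      Fintype.card Y ^ r) :
    Fintype.card (I → V) ≤
      2 * D * nc fun h : I → V => C.Proof (Fz Fx pos h z) (Nh pos h) out := by
  classical
  set A := Fintype.card (I → V) with hA
  set M := Fintype.card (Fin r → Y) with hM
  have hApos : 0 < A := by
    have : Nonempty (I → V) := ⟨fun _ => 0⟩
    exact Fintype.card_pos
  let φ : I × V ↪ Y := ⟨fun p => pos p.1 p.2, hpos⟩
  have h1 : ∀ h : I → V, A ≤ 2 * D * nc fun T : I → V =>
      C.Proof (Fz Fx pos (mix z h T) z) (Nh pos (mix z h T)) out := by
    intro h
    have e1 := hit φ (r := r)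
      (fun x => C.Proof (Fz Fx pos h z) (univ \ univ.image x) out)
      (fun T => C.Proof (Fz Fx pos (mix z h T) z) (Nh pos (mix z h T)) out)
      (by
        intro x T hx hg
        rw [Fz_mix]
        refine hg.mono fun e he => ?_
        by_cases heN : e ∈ Nh pos (mix z h T)
        · exact Or.inr heN
        left
        obtain ⟨i, hi⟩ : ∃ i, e = pos i (mix z h T i) := by
          by_contra hcon
          push Not at hcon
          exact heN (Finset.mem_filter.2 ⟨Finset.mem_univ _, hcon⟩)
        by_cases hiz : i ∈ z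
        · rw [mix_mem hiz] at hi
          rw [hi]
          exact Finset.mem_union_right _ (Finset.mem_image_of_mem _ hiz)
        · exfalso
          rw [mix_not hiz] at hi
          obtain ⟨j, hj⟩ := hx i
          refine (Finset.mem_sdiff.1 he).2 (Finset.mem_image.2 ⟨j, Finset.mem_univ _, ?_⟩)
          rw [hj, hi]
          rfl)
    rw [← hA, ← hM] at e1
    have e2 := hgood h
    have e3 := nc_miss_le φ r
    set X := nc fun x : Fin r → Y => C.Proof (Fz Fx pos h z) (univ \ univ.image x) out with hX
    set Y' := nc fun x : Fin r → Y => ∃ e, ∀ i y, x i ≠ φ (e, y) with hY'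
    set W := nc fun T : I → V =>
      C.Proof (Fz Fx pos (mix z h T) z) (Nh pos (mix z h T)) out with hW
    have e4 : 2 * D * Y' ≤ M := by
      refine (Nat.mul_le_mul_left _ e3).trans (hmiss.trans (le_of_eq ?_))
      rw [hM, Fintype.card_fun, Fintype.card_fin]
    refine Nat.le_of_mul_le_mul_left ?_ hY
    have e5 : 2 * (M * A) ≤ M * A + 2 * (D * (M * W)) := by
      calc 2 * (M * A) ≤ 2 * ((D * X) * A) :=
            Nat.mul_le_mul_left _ (Nat.mul_le_mul_right _ e2)
        _ = 2 * D * (X * A) := by ring
        _ ≤ 2 * D * (Y' * A + M * W) := Nat.mul_le_mul_left _ e1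
        _ = 2 * D * Y' * A + 2 * (D * (M * W)) := by ring
        _ ≤ M * A + 2 * (D * (M * W)) := Nat.add_le_add_right (Nat.mul_le_mul_right _ e4) _
    calc M * A ≤ 2 * (D * (M * W)) := by omega
      _ = M * (2 * D * W) := by ring
  let F : (I → V) → Prop := fun h => C.Proof (Fz Fx pos h z) (Nh pos h) out
  have e1 := nc_prod (α := I → V) (β := I → V) fun h T => F (mix z h T)
  have e2 : nc (fun x : (I → V) × (I → V) => F (mix z x.1 x.2)) = nc F * A := by
    have e3 := nc_equiv (exch z) fun x : (I → V) × (I → V) => F x.1 ∧ True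
    have e4 := nc_prod_and (β := I → V) F fun _ => True
    rw [nc_true fun _ => trivial] at e4
    rw [hA, ← e4, ← e3]
    exact nc_congr fun x => ⟨fun h => ⟨h, trivial⟩, fun h => h.1⟩
  rw [e2] at e1
  refine Nat.le_of_mul_le_mul_left ?_ hApos
  calc A * A = ∑ _h : I → V, A := by
        rw [Finset.sum_const, Finset.card_univ, smul_eq_mul]
    _ ≤ ∑ h : I → V, 2 * D * nc fun T : I → V => F (mix z h T) :=
        Finset.sum_le_sum fun h _ => h1 h
    _ = 2 * D * (nc F * A) := by rw [← Finset.mul_sum, e1]
    _ = A * (2 * D * nc F) := by ring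

/-- Greedy covering: if everybody is satisfied by a fraction `1 / q` of the choices, then few
choices satisfy everybody. -/
theorem greedy {X H : Type} [Fintype H] [Nonempty H] (Good : X → H → Prop) {q : ℕ} (hq : 1 ≤ q)
    (hG : ∀ x, Fintype.card H ≤ q * nc (Good x)) (T : ℕ) :
    ∀ Z : Finset X, Z.card * (q - 1) ^ T < q ^ T →
      ∃ hs : ℕ → H, ∀ x ∈ Z, ∃ t < T, Good x (hs t) := by
  classical
  induction T with
  | zero =>
    intro Z hZ
    have : Z = ∅ := by
      rw [← Finset.card_eq_zero]
      simpa using hZ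
    subst this
    exact ⟨fun _ => Classical.arbitrary H, by simp⟩
  | succ T ih =>
    intro Z hZ
    obtain ⟨h, hh⟩ : ∃ h : H, q * (Z.filter (fun x => ¬ Good x h)).card ≤ (q - 1) * Z.card := by
      by_contra hcon
      push Not at hcon
      have e1 : ∑ h : H, (Z.filter (fun x => ¬ Good x h)).card =
          ∑ x ∈ Z, nc (fun h => ¬ Good x h) := by
        simp_rw [nc_eq, Finset.card_filter]
        exact Finset.sum_comm
      have e2 : q * ∑ x ∈ Z, nc (fun h => ¬ Good x h) ≤ Z.card * ((q - 1) * Fintype.card H) := by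
        rw [Finset.mul_sum, ← smul_eq_mul, ← Finset.sum_const]
        refine Finset.sum_le_sum fun x _ => ?_
        have e3 := nc_add_nc_not (Good x)
        have e4 := hG x
        obtain ⟨q', rfl⟩ := Nat.exists_eq_add_of_le hq
        rw [Nat.add_sub_cancel_left]
        have e5 : (1 + q') * nc (Good x) + (1 + q') * nc (fun h => ¬ Good x h) =
            (1 + q') * Fintype.card H := by rw [← mul_add, e3]
        have e6 : (1 + q') * Fintype.card H = Fintype.card H + q' * Fintype.card H := by ring
        omega
      have e3 : Z.card * ((q - 1) * Fintype.card H) <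
          q * ∑ h : H, (Z.filter (fun x => ¬ Good x h)).card := by
        rw [Finset.mul_sum]
        calc Z.card * ((q - 1) * Fintype.card H) = ∑ _h : H, (q - 1) * Z.card := by
              rw [Finset.sum_const, smul_eq_mul, Finset.card_univ]
              ring
          _ < _ := Finset.sum_lt_sum_of_nonempty Finset.univ_nonempty fun h _ => hcon h
      rw [e1] at e3
      omega
    set Z' := Z.filter (fun x => ¬ Good x h) with hZ'
    obtain ⟨hs, hhs⟩ := ih Z' (by
      refine Nat.lt_of_mul_lt_mul_left (a := q) ?_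
      calc q * (Z'.card * (q - 1) ^ T) = q * Z'.card * (q - 1) ^ T := by ring
        _ ≤ (q - 1) * Z.card * (q - 1) ^ T := Nat.mul_le_mul_right _ hh
        _ = Z.card * (q - 1) ^ (T + 1) := by ring
        _ < q ^ (T + 1) := hZ
        _ = q * q ^ T := by ring)
    refine ⟨fun t => if t = T then h else hs t, fun x hx => ?_⟩
    by_cases hg : Good x h
    · exact ⟨T, by omega, by simpa using hg⟩
    · obtain ⟨t, ht, hgt⟩ := hhs x (Finset.mem_filter.2 ⟨hx, hg⟩)
      refine ⟨t, by omega, ?_⟩
      change Good x (if t = T then h else hs t)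
      rw [if_neg (by omega)]
      exact hgt

/-- The places give a monotone circuit on the slots. -/
theorem assemble {T : ℕ} (C : Circuit Y s) (out : Fin s) (pos : I → V → Y)
    (hpos : Function.Injective (fun p : I × V => pos p.1 p.2)) (Fx : Finset Y)
    (hFx : ∀ i v, pos i v ∉ Fx) (f : Finset I → Prop)
    (hrej : ∀ h z, ¬ f z → ¬ C.Proof (Fz Fx pos h z) Finset.univ out) (hs : ℕ → I → V)
    (hgood : ∀ z, f z → ∃ t < T, C.Proof (Fz Fx pos (hs t) z) (Nh pos (hs t)) out) :
    ∃ (C' : Pool.Agent.H25.NS.Circuit I (Fintype.card I + (T * s + 1)) 0 0) (out' : Fin _),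
      ∀ z : Finset I, C'.fn out' z ↔ f z := by
  classical
  have hlive : ∀ h z i, pos i (h i) ∈ Fz Fx pos h z ↔ i ∈ z := by
    intro h z i
    unfold Fz
    rw [Finset.mem_union, Finset.mem_image]
    constructor
    · rintro (h1 | ⟨j, hj, h1⟩)
      · exact absurd h1 (hFx _ _)
      · have := hpos (a₁ := (j, h j)) (a₂ := (i, h i)) h1
        rw [Prod.mk.injEq] at this
        rw [← this.1]; exact hj
    · intro hi
      exact Or.inr ⟨i, hi, rfl⟩
  have hdead : ∀ h z e, e ∈ Nh pos h → (e ∈ Fz Fx pos h z ↔ e ∈ Fx) := by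
    intro h z e he
    unfold Fz
    rw [Finset.mem_union, Finset.mem_image]
    constructor
    · rintro (h1 | ⟨j, hj, h1⟩)
      · exact h1
      · exact absurd h1.symm ((Finset.mem_filter.1 he).2 j)
    · exact Or.inl
  have hNh : ∀ h e, e ∉ Nh pos h → ∃ i, e = pos i (h i) := by
    intro h e he
    by_contra hcon
    push Not at hcon
    exact he (Finset.mem_filter.2 ⟨Finset.mem_univ _, hcon⟩)
  let J := I ⊕ ((Fin T × Fin s) ⊕ Unit)
  let ρ : J → ℕ := fun j => match j with
    | Sum.inl _ => 0
    | Sum.inr (Sum.inl (_, i)) => i + 1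
    | Sum.inr (Sum.inr _) => s + 1
  let g : J → Finset I → Prop := fun j z => match j with
    | Sum.inl i => i ∈ z
    | Sum.inr (Sum.inl (t, i)) => C.Proof (Fz Fx pos (hs t) z) (Nh pos (hs t)) i
    | Sum.inr (Sum.inr _) => ∃ t : Fin T, C.Proof (Fz Fx pos (hs t) z) (Nh pos (hs t)) out
  let ins : J → Finset J := fun j => match j with
    | Sum.inl _ => ∅
    | Sum.inr (Sum.inl (t, i)) =>
      if i ∈ C.leaf then
        (if C.test i (Fz Fx pos (hs t) univ) then
          (univ.filter (fun a : I => pos a (hs t a) ∈ C.reads i)).map Function.Embedding.inl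
        else ∅)
      else (C.ins i).map ⟨fun j => Sum.inr (Sum.inl (t, j)),
        fun a b h => (Prod.mk.inj (Sum.inl.inj (Sum.inr.inj h))).2⟩
    | Sum.inr (Sum.inr _) => univ.map ⟨fun t : Fin T => Sum.inr (Sum.inl (t, out)),
        fun a b h => (Prod.mk.inj (Sum.inl.inj (Sum.inr.inj h))).1⟩
  obtain ⟨C', out', hC'⟩ := to_circuit J ρ g ins (by
    rintro (p | ⟨t, i⟩ | u) j hj
    · exact absurd hj (Finset.notMem_empty _)
    · by_cases hi : i ∈ C.leaf
      · by_cases hb : C.test i (Fz Fx pos (hs t) univ)
        · simp only [ins, if_pos hi, if_pos hb, Finset.mem_map] at hj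
          obtain ⟨p, -, rfl⟩ := hj
          change 0 < (i : ℕ) + 1
          omega
        · simp only [ins, if_pos hi, if_neg hb] at hj
          exact absurd hj (Finset.notMem_empty _)
      · simp only [ins, if_neg hi, Finset.mem_map] at hj
        obtain ⟨j', hj', rfl⟩ := hj
        change (j' : ℕ) + 1 < i + 1
        have := C.ins_lt i j' hj'
        omega
    · simp only [ins, Finset.mem_map] at hj
      obtain ⟨t, -, rfl⟩ := hj
      change (out : ℕ) + 1 < s + 1
      have := out.2
      omega) (by
    rintro (a | ⟨t, i⟩ | u)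
    · exact Or.inl ⟨a, fun z => Iff.rfl⟩
    · right
      by_cases hi : i ∈ C.leaf
      · have key : ∀ z, C.Proof (Fz Fx pos (hs t) z) (Nh pos (hs t)) i ↔
            (∀ a, pos a (hs t a) ∈ C.reads i → a ∈ z) ∧ C.test i (Fz Fx pos (hs t) univ) := by
          intro z
          rw [Circuit.proof_leaf hi]
          have h1 : (∀ e ∈ C.reads i, e ∈ Fz Fx pos (hs t) z ∨ e ∈ Nh pos (hs t)) ↔
              ∀ a, pos a (hs t a) ∈ C.reads i → a ∈ z := by
            constructor
            · intro h a ha
              rcases h _ ha with h2 | h2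
              · exact (hlive _ _ _).1 h2
              · exact absurd rfl ((Finset.mem_filter.1 h2).2 a)
            · intro h e he
              by_cases heN : e ∈ Nh pos (hs t)
              · exact Or.inr heN
              · left
                obtain ⟨a, rfl⟩ := hNh _ _ heN
                exact (hlive _ _ _).2 (h a he)
          rw [h1]
          have h2 : (∀ a, pos a (hs t a) ∈ C.reads i → a ∈ z) →
              ∀ e ∈ C.reads i, e ∈ Fz Fx pos (hs t) z ↔ e ∈ Fz Fx pos (hs t) univ := by
            intro h e he
            by_cases heN : e ∈ Nh pos (hs t)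
            · rw [hdead _ _ _ heN, hdead _ _ _ heN]
            · obtain ⟨a, rfl⟩ := hNh _ _ heN
              rw [hlive, hlive]
              exact ⟨fun _ => Finset.mem_univ _, fun _ => h a he⟩
          constructor
          · rintro ⟨h3, h4⟩
            exact ⟨h4, C.test_of_eq i _ _ (h2 h4) h3⟩
          · rintro ⟨h3, h4⟩
            exact ⟨C.test_of_eq i _ _ (fun e he => (h2 h3 e he).symm) h4, h3⟩
        by_cases hb : C.test i (Fz Fx pos (hs t) univ)
        · left
          intro z
          change C.Proof (Fz Fx pos (hs t) z) (Nh pos (hs t)) i ↔ _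
          rw [key]
          simp only [ins, if_pos hi, if_pos hb]
          constructor
          · rintro ⟨h1, -⟩ j hj
            rw [Finset.mem_map] at hj
            obtain ⟨a, ha, rfl⟩ := hj
            exact h1 a (Finset.mem_filter.1 ha).2
          · intro h
            refine ⟨fun a ha => ?_, hb⟩
            exact h (Sum.inl a) (Finset.mem_map_of_mem _ (Finset.mem_filter.2
              ⟨Finset.mem_univ _, ha⟩))
        · right
          intro z
          change C.Proof (Fz Fx pos (hs t) z) (Nh pos (hs t)) i ↔ _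
          rw [key]
          simp only [ins, if_pos hi, if_neg hb]
          constructor
          · rintro ⟨-, h⟩
            exact absurd h hb
          · rintro ⟨j, hj, -⟩
            exact absurd hj (Finset.notMem_empty _)
      · by_cases hc : i ∈ C.conj
        · left
          intro z
          change C.Proof (Fz Fx pos (hs t) z) (Nh pos (hs t)) i ↔ _
          rw [Circuit.proof_conj hi hc]
          simp only [ins, if_neg hi, Finset.mem_map]
          constructor
          · rintro h j ⟨j', hj', rfl⟩
            exact h j' hj'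
          · intro h j hj
            exact h _ ⟨j, hj, rfl⟩
        · right
          intro z
          change C.Proof (Fz Fx pos (hs t) z) (Nh pos (hs t)) i ↔ _
          rw [Circuit.proof_disj hi hc]
          simp only [ins, if_neg hi, Finset.mem_map]
          constructor
          · rintro ⟨j, hj, h⟩
            exact ⟨_, ⟨j, hj, rfl⟩, h⟩
          · rintro ⟨j, ⟨j', hj', rfl⟩, h⟩
            exact ⟨j', hj', h⟩
    · right; right
      intro z
      simp only [ins, Finset.mem_map]
      constructor
      · rintro ⟨t, h⟩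
        exact ⟨_, ⟨t, Finset.mem_univ _, rfl⟩, h⟩
      · rintro ⟨j, ⟨t, -, rfl⟩, h⟩
        exact ⟨t, h⟩) (Sum.inr (Sum.inr ()))
  have hcJ : Fintype.card J = Fintype.card I + (T * s + 1) := by
    simp only [J, Fintype.card_sum, Fintype.card_prod, Fintype.card_fin, Fintype.card_unit]
  rw [← hcJ]
  refine ⟨C', out', fun z => ?_⟩
  rw [hC']
  change (∃ t : Fin T, C.Proof (Fz Fx pos (hs t) z) (Nh pos (hs t)) out) ↔ _
  constructor
  · rintro ⟨t, h⟩
    by_contra hz
    exact hrej (hs t) z hz (h.mono (fun e _ => Or.inr (Finset.mem_univ _)))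
  · intro hz
    obtain ⟨t, ht, h⟩ := hgood z hz
    exact ⟨⟨t, ht⟩, h⟩

/-- **The reduction.** -/
theorem reduce [AddGroup V] {D r : ℕ} (hD : 1 ≤ D) (C : Circuit Y s) (out : Fin s)
    (pos : I → V → Y)
    (hpos : Function.Injective (fun p : I × V => pos p.1 p.2)) (Fx : Finset Y)
    (hFx : ∀ i v, pos i v ∉ Fx) (f : Finset I → Prop)
    (hrej : ∀ h z, ¬ f z → ¬ C.Proof (Fz Fx pos h z) Finset.univ out)
    (hacc : ∀ h z, f z → Fintype.card (Fin r → Y) ≤
      D * nc fun x : Fin r → Y => C.Proof (Fz Fx pos h z) (univ \ univ.image x) out)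
    (hY : 0 < Fintype.card (Fin r → Y))
    (hmiss : 2 * D * (Fintype.card I * (Fintype.card Y - Fintype.card V) ^ r) ≤
      Fintype.card Y ^ r) :
    ∃ (C' : Pool.Agent.H25.NS.Circuit I
      (Fintype.card I + (2 * D * (Fintype.card I + 1) * s + 1)) 0 0) (out' : Fin _),
      ∀ z : Finset I, C'.fn out' z ↔ f z := by
  classical
  set q := 2 * D with hq
  have hq1 : 1 ≤ q := by omega
  set K := Fintype.card I + 1 with hK
  have hNV : Nonempty (I → V) := ⟨fun _ => 0⟩
  obtain ⟨hs, hhs⟩ := greedy (X := {z : Finset I // f z}) (H := I → V)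
    (fun z h => C.Proof (Fz Fx pos h z.1) (Nh pos h) out) hq1
    (fun z => one C out pos hpos Fx z.1 (fun h => hacc h z.1 z.2) hY hmiss) (q * K) univ (by
      have h1 := Nat.pow_le_pow_left (Pool.Agent.H25.NP.two_mul_pred_pow q hq1) K
      rw [mul_pow, ← pow_mul, ← pow_mul] at h1
      have h2 : (univ : Finset {z : Finset I // f z}).card ≤ 2 ^ Fintype.card I := by
        rw [Finset.card_univ, ← Fintype.card_finset]
        exact Fintype.card_subtype_le _
      have h3 : 0 < q ^ (q * K) := Nat.pow_pos hq1
      have h4 := Nat.mul_le_mul_right ((q - 1) ^ (q * K)) h2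
      have h5 : 2 ^ K = 2 * 2 ^ Fintype.card I := by rw [hK, pow_succ, mul_comm]
      rw [h5, mul_assoc] at h1
      omega)
  exact assemble C out pos hpos Fx hFx f hrej hs fun z hz => hhs ⟨z, hz⟩ (Finset.mem_univ _)

end Pool.Agent.H78.FR.S
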